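import Pool.Agent.N154.CN.Form

/-! The local intersection numbers. -/

set_option autoImplicit false

open Filter Topology Metric Set
open scoped ComplexConjugate

namespace Pool.Agent.N154.CN

open Pool.Agent.TH144.CN (B Y Ep Ap Gp Fp Af Gf Af_cont)

/-! ### determinants of real linear maps -/

/-- the map on functions on a one-point set that is given by a map of the complex plane -/
noncomputable def lift1 (M : ℂ →L[ℝ] ℂ) : (Fin 1 → ℂ) →L[ℝ] (Fin 1 → ℂ) :=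
  ContinuousLinearMap.pi fun _ => M.comp (ContinuousLinearMap.proj 0)

lemma det_lift1 (M : ℂ →L[ℝ] ℂ) : (lift1 M).det = LinearMap.det (M : ℂ →ₗ[ℝ] ℂ) := by
  have h := LinearMap.det_conj (M : ℂ →ₗ[ℝ] ℂ) (LinearEquiv.funUnique (Fin 1) ℝ ℂ).symm
  rw [← h]
  unfold ContinuousLinearMap.det
  congr 1

/-- multiplication by a complex number -/
noncomputable def mulC (a : ℂ) : ℂ →L[ℝ] ℂ := a • ContinuousLinearMap.id ℝ ℂ

/-- multiplication by a complex number after conjugation -/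
noncomputable def mulConj (a : ℂ) : ℂ →L[ℝ] ℂ := a • (Complex.conjCLE : ℂ →L[ℝ] ℂ)

lemma det_mulC (a : ℂ) : LinearMap.det (mulC a : ℂ →ₗ[ℝ] ℂ) = Complex.normSq a := by
  rw [← Algebra.norm_complex_apply, Algebra.norm_apply]
  congr 1

lemma det_mulConj (a : ℂ) : LinearMap.det (mulConj a : ℂ →ₗ[ℝ] ℂ) = -Complex.normSq a := by
  have h : (mulConj a : ℂ →ₗ[ℝ] ℂ) = (mulC a : ℂ →ₗ[ℝ] ℂ) ∘ₗ Complex.conjAe.toLinearMap := by
    ext x
    simp [mulConj, mulC]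
  rw [h, LinearMap.det_comp, det_mulC, Complex.det_conjAe]
  ring

/-- the derivative of a product, one of whose factors vanishes -/
lemma hasFDerivAt_mul_zero {u c : ℂ → ℂ} {L : ℂ →L[ℝ] ℂ} (hu : HasFDerivAt u L 0)
    (hu0 : u 0 = 0) (hc : ContinuousAt c 0) :
    HasFDerivAt (fun s => c s * u s) (c 0 • L) 0 := by
  rw [hasFDerivAt_iff_isLittleO] at hu ⊢
  have h1 : (fun s => c s * u s - c 0 * u 0 - (c 0 • L) (s - 0)) =
      fun s => (c s - c 0) * u s + c 0 * (u s - u 0 - L (s - 0)) := by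
    funext s
    simp only [_root_.smul_apply, smul_eq_mul, hu0]
    ring
  rw [h1]
  refine Asymptotics.IsLittleO.add ?_ (hu.const_mul_left (c 0))
  have h2 : (fun s => c s - c 0) =o[𝓝 0] (fun _ => (1 : ℂ)) := by
    rw [Asymptotics.isLittleO_one_iff]
    have := hc.tendsto.sub_const (c 0)
    rwa [sub_self] at this
  have h3 : u =O[𝓝 0] fun s => s - 0 := by
    have h4 : (fun s => u s - u 0) =O[𝓝 0] fun s => s - 0 :=
      ((hasFDerivAt_iff_isLittleO.2 hu)).isBigO_sub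
    simpa [hu0] using h4
  have h5 := h2.mul_isBigO h3
  simpa using h5

/-! ### the local branch -/

lemma exists_psi {y0 z0 : ℂ} (hz : z0 ≠ 0) (hA : z0 ^ 16 + y0 ^ 256 + y0 ^ 240 = 0) :
    ∃ ψ : ℂ → ℂ, ψ 0 = z0 ∧ (∀ᶠ s in 𝓝 (0 : ℂ), DifferentiableAt ℂ ψ s) ∧
      ∀ s, ψ s ^ 16 + (y0 + s) ^ 256 + (y0 + s) ^ 240 = 0 := by
  set R : ℂ → ℂ := fun s => (y0 + s) ^ 256 + (y0 + s) ^ 240 with hR
  have hz16 : z0 ^ 16 ≠ 0 := pow_ne_zero _ hz
  have hR0 : R 0 = -z0 ^ 16 := by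
    simp only [hR, add_zero]
    linear_combination hA
  have hR0' : R 0 ≠ 0 := by
    rw [hR0]
    exact neg_ne_zero.2 hz16
  have hRd : Differentiable ℂ R := by
    simp only [hR]
    fun_prop
  refine ⟨fun s => z0 * (R s / R 0) ^ (((16 : ℕ) : ℂ)⁻¹), ?_, ?_, ?_⟩
  · simp only [div_self hR0', Complex.one_cpow, mul_one]
  · have h1 : Tendsto (fun s => R s / R 0) (𝓝 0) (𝓝 1) := by
      have := (hRd.continuous.div_const (R 0)).tendsto 0
      rwa [div_self hR0'] at this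
    have h2 : ∀ᶠ s in 𝓝 (0 : ℂ), R s / R 0 ∈ Complex.slitPlane :=
      h1 (Complex.isOpen_slitPlane.mem_nhds Complex.one_mem_slitPlane)
    filter_upwards [h2] with s hs
    exact (((hRd s).div_const _).cpow (differentiableAt_const _) hs).const_mul _
  · intro s
    have h1 : ((R s / R 0) ^ (((16 : ℕ) : ℂ)⁻¹)) ^ 16 = R s / R 0 :=
      Complex.cpow_nat_inv_pow _ (by norm_num)
    have h2 : (z0 * (R s / R 0) ^ (((16 : ℕ) : ℂ)⁻¹)) ^ 16 = -R s := by
      rw [mul_pow, h1, hR0]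
      field_simp
    rw [h2]
    change -((y0 + s) ^ 256 + (y0 + s) ^ 240) + (y0 + s) ^ 256 + (y0 + s) ^ 240 = 0
    generalize (y0 + s) ^ 256 = a
    generalize (y0 + s) ^ 240 = b
    ring

/-- the parametrization of the curve -/
noncomputable def phi (ζ y0 : ℂ) (ψ : ℂ → ℂ) (t : Fin 1 → ℂ) : Vec :=
  (bs ζ, ![1, y0 + t 0, ψ (t 0)])

/-- the derivative of the parametrization -/
noncomputable def dphi (c : ℂ) : (Fin 1 → ℂ) →L[ℂ] Vec :=
  (0 : (Fin 1 → ℂ) →L[ℂ] (Fin 3 → ℂ)).prod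
    (ContinuousLinearMap.pi ![0, ContinuousLinearMap.proj 0, c • ContinuousLinearMap.proj 0])

lemma dphi_apply (c : ℂ) (w : Fin 1 → ℂ) : dphi c w = (0, ![0, w 0, c * w 0]) := by
  unfold dphi
  rw [ContinuousLinearMap.prod_apply]
  refine Prod.ext rfl ?_
  funext i
  fin_cases i <;> simp

lemma hasFDerivAt_phi {ζ y0 c : ℂ} {ψ : ℂ → ℂ} {t : Fin 1 → ℂ} (h : HasDerivAt ψ c (t 0)) :
    HasFDerivAt (phi ζ y0 ψ) (dphi c) t := by
  refine (hasFDerivAt_const _ _).prodMk (hasFDerivAt_pi.2 fun i => ?_)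
  have hp : HasFDerivAt (fun t : Fin 1 → ℂ => t 0)
      (ContinuousLinearMap.proj 0 : (Fin 1 → ℂ) →L[ℂ] ℂ) t :=
    (ContinuousLinearMap.proj 0 : (Fin 1 → ℂ) →L[ℂ] ℂ).hasFDerivAt
  fin_cases i
  · exact hasFDerivAt_const _ _
  · exact hp.const_add y0
  · exact h.comp_hasFDerivAt t hp

lemma Af_one (a b : ℂ) : Af ![1, a, b] = b ^ 16 + a ^ 256 + a ^ 240 := by
  simp [Af]

/-- the data of a branch of the curve -/
structure Branch (y0 z0 : ℂ) (ψ : ℂ → ℂ) : Prop where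
  hy : y0 ≠ 0
  hz : z0 ≠ 0
  base : ψ 0 = z0
  diff : ∀ᶠ s in 𝓝 (0 : ℂ), DifferentiableAt ℂ ψ s
  eq : ∀ s, ψ s ^ 16 + (y0 + s) ^ 256 + (y0 + s) ^ 240 = 0

lemma Branch.chart {y0 z0 : ℂ} {ψ : ℂ → ℂ} (h : Branch y0 z0 ψ) (ζ : ℂ) :
    Chart (ZZ ζ) (bs ζ, ![1, y0, z0]) 1 (phi ζ y0 ψ) := by
  have hne : ∀ a b : ℂ, (![1, a, b] : Fin 3 → ℂ) ≠ 0 := by
    intro a b h
    have := congrFun h 0
    simp at this
  have hmem : ∀ s, ((bs ζ, ![1, y0 + s, ψ s]) : Vec) ∈ (ZZ ζ).cone := by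
    intro s
    have := mem_ZZ_mk (ζ := ζ) (x := ![1, y0 + s, ψ s]) one_ne_zero (hne _ _) (by
      rw [Af_one]
      exact h.eq s)
    rwa [one_smul] at this
  have hbase : phi ζ y0 ψ 0 = (bs ζ, ![1, y0, z0]) := by
    simp [phi, h.base]
  have hreg : (ZZ ζ).RegularAt (bs ζ, ![1, y0, z0]) := by
    rw [regular_iff]
    refine ⟨?_, by simpa using h.hy⟩
    have := hmem 0
    rwa [h.base, add_zero] at this
  have ht : Tendsto (fun t : Fin 1 → ℂ => t 0) (𝓝 0) (𝓝 0) := by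
    have := (continuous_apply (0 : Fin 1)).tendsto (0 : Fin 1 → ℂ)
    exact this
  refine ⟨hreg, ?_, hbase, Eventually.of_forall fun t => hmem (t 0), ?_, ?_⟩
  · rw [finrank_tangent hreg.1, if_neg (regular_iff.1 hreg).2]
  · filter_upwards [ht h.diff] with t ht'
    exact (hasFDerivAt_phi (DifferentiableAt.hasDerivAt ht')).differentiableAt
  · rintro w ⟨s, t, hst⟩
    have h0 : DifferentiableAt ℂ ψ ((0 : Fin 1 → ℂ) 0) := h.diff.self_of_nhds
    rw [(hasFDerivAt_phi (y0 := y0) (ζ := ζ) h0.hasDerivAt).fderiv, dphi_apply] at hst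
    have h2 := congrArg Prod.snd hst
    have k0 := congrFun h2 0
    have k1 := congrFun h2 1
    simp at k0 k1
    rw [← k0, zero_mul] at k1
    funext i
    fin_cases i
    exact k1

end Pool.Agent.N154.CN
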