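import Pool.Agent.N154.CN.Smooth

/-! Connectedness of the surface: preparations. -/

set_option autoImplicit false

open Filter Topology Metric Set

namespace Pool.Agent.N154.CN

open Pool.Agent.TH144.CN (B Y Ep Ap Gp Fp Af Gf Af_cont Gf_cont Af_smul)

/-- the expression of `A` in a commutative ring -/
def afE {R : Type} [CommRing R] (x y z : R) : R := x ^ 240 * z ^ 16 + y ^ 256 + x ^ 16 * y ^ 240

lemma afE_map {R S : Type} [CommRing R] [CommRing S] (f : R →+* S) (x y z : R) :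
    f (afE x y z) = afE (f x) (f y) (f z) := by
  simp only [afE, map_add, map_mul, map_pow]

lemma Af_eq (x : Fin 3 → ℂ) : Af x = afE (x 0) (x 1) (x 2) := rfl

/-- the polynomial `A` on a line -/
noncomputable def lineP (x d : Fin 3 → ℂ) : Polynomial ℂ :=
  afE (Polynomial.C (x 0) + Polynomial.C (d 0) * Polynomial.X)
    (Polynomial.C (x 1) + Polynomial.C (d 1) * Polynomial.X)
    (Polynomial.C (x 2) + Polynomial.C (d 2) * Polynomial.X)

lemma eval_lineP (x d : Fin 3 → ℂ) (t : ℂ) : (lineP x d).eval t = Af (x + t • d) := by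
  have h : ∀ i, Polynomial.evalRingHom t (Polynomial.C (x i) + Polynomial.C (d i) * Polynomial.X) =
      (x + t • d) i := fun i => by
    rw [Polynomial.coe_evalRingHom, Polynomial.eval_add, Polynomial.eval_mul, Polynomial.eval_C,
      Polynomial.eval_C, Polynomial.eval_X, Pi.add_apply, Pi.smul_apply, smul_eq_mul, mul_comm]
  rw [Af_eq, ← h, ← h, ← h, ← afE_map]
  rfl

lemma finite_line {x d : Fin 3 → ℂ} (h : ∃ t : ℂ, Af (x + t • d) ≠ 0) :
    {t : ℂ | Af (x + t • d) = 0}.Finite := by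
  obtain ⟨t, ht⟩ := h
  have h0 : lineP x d ≠ 0 := by
    intro h0
    apply ht
    rw [← eval_lineP, h0, Polynomial.eval_zero]
  refine (Polynomial.finite_setOfPred_isRoot h0).subset fun s hs => ?_
  have hs' : Af (x + s • d) = 0 := hs
  change (lineP x d).eval s = 0
  rw [eval_lineP, hs']

/-- the complement of the zero set of `A` is connected -/
lemma conn_A : IsConnected {x : Fin 3 → ℂ | Af x ≠ 0} := by
  apply IsPathConnected.isConnected
  refine ⟨![0, 1, 0], by simp [Af], fun {x} hx => ?_⟩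
  have hx' : Af x ≠ 0 := hx
  set d : Fin 3 → ℂ := x - ![0, 1, 0] with hd
  have hf : {t : ℂ | Af (![0, 1, 0] + t • d) = 0}.Finite := by
    apply finite_line
    refine ⟨0, ?_⟩
    rw [zero_smul, add_zero]
    simp [Af]
  have hpc := hf.countable.isPathConnected_compl_of_one_lt_rank (E := ℂ)
    (by rw [Complex.rank_real_complex]; norm_num)
  have h0 : (0 : ℂ) ∈ {t : ℂ | Af (![0, 1, 0] + t • d) = 0}ᶜ := by
    rw [mem_compl_iff, mem_ofPred_eq, zero_smul, add_zero]
    simp [Af]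
  have h1 : (1 : ℂ) ∈ {t : ℂ | Af (![0, 1, 0] + t • d) = 0}ᶜ := by
    rw [mem_compl_iff, mem_ofPred_eq, one_smul, hd, add_sub_cancel]
    exact hx'
  have hj := hpc.joinedIn 0 h0 1 h1
  have hc : Continuous fun t : ℂ => (![0, 1, 0] + t • d : Fin 3 → ℂ) := by fun_prop
  have hj' := hj.map hc
  simp only [zero_smul, add_zero, one_smul] at hj'
  have e1 : (![0, 1, 0] + d : Fin 3 → ℂ) = x := by rw [hd, add_sub_cancel]
  rw [e1] at hj'
  refine hj'.mono ?_
  rintro _ ⟨t, ht, rfl⟩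
  exact ht

lemma dense_A (x : Fin 3 → ℂ) : x ∈ closure {x : Fin 3 → ℂ | Af x ≠ 0} := by
  set d : Fin 3 → ℂ := ![0, 1, 0] - x with hd
  have hf : {t : ℂ | Af (x + t • d) = 0}.Finite := by
    apply finite_line
    refine ⟨1, ?_⟩
    rw [one_smul, hd, add_sub_cancel]
    simp [Af]
  have hdense : Dense {t : ℂ | Af (x + t • d) = 0}ᶜ := hf.countable.dense_compl ℂ
  have h0 : (0 : ℂ) ∈ closure {t : ℂ | Af (x + t • d) = 0}ᶜ := hdense 0
  have hc : Continuous fun t : ℂ => (x + t • d : Fin 3 → ℂ) := by fun_prop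
  have h1 := image_closure_subset_closure_image hc ⟨0, h0, rfl⟩
  simp only [zero_smul, add_zero] at h1
  refine closure_mono ?_ h1
  rintro _ ⟨t, ht, rfl⟩
  exact ht

/-- the complement of the base locus -/
def UU (γ : ℂ) : Set (Fin 3 → ℂ) := {x | Af x ≠ 0 ∨ Gf γ x ≠ 0}

lemma conn_UU (γ : ℂ) : IsConnected (UU γ) :=
  conn_A.subset_closure (fun _ hx => Or.inl hx) fun x _ => dense_A x

lemma open_UU (γ : ℂ) : IsOpen (UU γ) :=
  (isOpen_ne_fun Af_cont continuous_const).union (isOpen_ne_fun (Gf_cont γ) continuous_const)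

/-- the fourth power of the third coordinate -/
def hh (γ : ℂ) (x : Fin 3 → ℂ) : ℂ := -(16 * Gf γ x ^ 4 + Af x ^ 4)

lemma hh_cont (γ : ℂ) : Continuous (hh γ) := by
  unfold hh
  have := Af_cont
  have := Gf_cont γ
  fun_prop

/-- the fourfold cover -/
def YY (γ : ℂ) : Set ((Fin 3 → ℂ) × ℂ) := {p | p.1 ∈ UU γ ∧ p.2 ^ 4 = hh γ p.1}

/-- continuity of roots -/
lemma root_near {a δ : ℂ} {ε : ℝ} (hε : 0 < ε) (h : ‖δ ^ 4 - a‖ < ε ^ 4) :
    ∃ r : ℂ, r ^ 4 = a ∧ ‖δ - r‖ < ε := by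
  obtain ⟨r, hr⟩ := IsAlgClosed.exists_pow_nat_eq a (n := 4) (by norm_num)
  by_contra hcon
  push Not at hcon
  have h1 := hcon r hr
  have h2 := hcon (-r) (by rw [← hr]; ring)
  have h3 := hcon (Complex.I * r) (by rw [mul_pow, hr, Complex.I_pow_four, one_mul])
  have h4 := hcon (-(Complex.I * r)) (by rw [neg_pow, mul_pow, hr, Complex.I_pow_four]; ring)
  have h5 : δ ^ 4 - a = (δ - r) * (δ - -r) * ((δ - Complex.I * r) * (δ - -(Complex.I * r))) := by
    rw [← hr]
    linear_combination (r ^ 2 * δ ^ 2 - r ^ 4) * Complex.I_sq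
  rw [h5, norm_mul, norm_mul, norm_mul] at h
  have h6 : ε * ε ≤ ‖δ - r‖ * ‖δ - -r‖ := mul_le_mul h1 h2 hε.le (norm_nonneg _)
  have h7 : ε * ε ≤ ‖δ - Complex.I * r‖ * ‖δ - -(Complex.I * r)‖ :=
    mul_le_mul h3 h4 hε.le (norm_nonneg _)
  have h8 : (ε * ε) * (ε * ε) ≤ _ := mul_le_mul h6 h7 (by positivity) (by positivity)
  have h9 : (ε * ε) * (ε * ε) = ε ^ 4 := by ring
  rw [h9] at h8
  linarith

/-- a point where the cover is totally ramified -/
lemma exists_ram {γ : ℂ} (hγ : γ ≠ 0) : ∃ x ∈ UU γ, hh γ x = 0 := by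
  obtain ⟨e, he⟩ := IsAlgClosed.exists_pow_nat_eq (-1 : ℂ) (n := 4) (by norm_num)
  have he0 : e ≠ 0 := by
    rintro rfl
    norm_num at he
  obtain ⟨z, hz⟩ := IsAlgClosed.exists_root
    (Polynomial.C (2 * e * γ) * Polynomial.X ^ 256 + Polynomial.X ^ 16 + Polynomial.C (2 * e))
    (by
      have h1 : (Polynomial.C (2 * e * γ) * Polynomial.X ^ 256 + Polynomial.X ^ 16 +
          Polynomial.C (2 * e)).degree = 256 := by
        have h0 : 2 * e * γ ≠ 0 := mul_ne_zero (mul_ne_zero (by norm_num) he0) hγ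
        compute_degree!
      rw [h1]
      norm_num)
  have hz' : 2 * e * γ * z ^ 256 + z ^ 16 + 2 * e = 0 := by
    simpa [Polynomial.IsRoot] using hz
  refine ⟨![1, 0, z], ?_, ?_⟩
  · by_contra hcon
    simp only [UU, mem_ofPred_eq, not_or, not_not, Af, Gf] at hcon
    simp at hcon
    rw [hcon.1] at hz'
    simp [he0] at hz'
  · unfold hh Af Gf
    simp
    have h1 : z ^ 16 = -(2 * e * (1 + γ * z ^ 256)) := by linear_combination hz'
    have h2 : (z ^ 16) ^ 4 = -16 * (1 + γ * z ^ 256) ^ 4 := by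
      rw [h1]
      linear_combination 16 * (1 + γ * z ^ 256) ^ 4 * he
    rw [h2]
    ring

end Pool.Agent.N154.CN
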