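import Pool.Agent.N154.CN.Conn1

/-! Connectedness of the surface. -/

set_option autoImplicit false

open Filter Topology Metric Set

namespace Pool.Agent.N154.CN

open Pool.Agent.TH144.CN (B Y Ep Ap Gp Fp Af Gf Af_cont Gf_cont Af_smul)

/-- the points over the base which are covered by a relatively clopen subset of `YY` -/
lemma YY_half {γ : ℂ} {u v : Set ((Fin 3 → ℂ) × ℂ)} (hu : IsOpen u) (hv : IsOpen v)
    (huv : YY γ ⊆ u ∪ v) (hne : (YY γ ∩ u).Nonempty) (hemp : ¬ (YY γ ∩ (u ∩ v)).Nonempty) :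
    UU γ ⊆ {x | ∃ δ, (x, δ) ∈ YY γ ∩ u} := by
  apply (conn_UU γ).isPreconnected.subset_of_closure_inter_subset
  · rw [Metric.isOpen_iff]
    rintro x ⟨δ, hY, hδu⟩
    obtain ⟨ε, hε, hball⟩ := Metric.isOpen_iff.1 hu _ hδu
    obtain ⟨ε2, hε2, hball2⟩ := Metric.isOpen_iff.1 (open_UU γ) _ hY.1
    obtain ⟨ε3, hε3, hball3⟩ := Metric.continuous_iff.1 (hh_cont γ) x (ε ^ 4) (by positivity)
    refine ⟨min ε (min ε2 ε3), by positivity, fun x' hx' => ?_⟩
    rw [mem_ball, lt_min_iff, lt_min_iff] at hx'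
    obtain ⟨h1, h2, h3⟩ := hx'
    have h4 := hball3 x' h3
    obtain ⟨r, hr, hrd⟩ := root_near (a := hh γ x') (δ := δ) hε (by
      rw [hY.2, ← dist_eq_norm, dist_comm]
      exact h4)
    refine ⟨r, ⟨hball2 (by rw [mem_ball]; exact h2), hr⟩, hball ?_⟩
    rw [mem_ball, Prod.dist_eq, max_lt_iff]
    refine ⟨h1, ?_⟩
    change dist r δ < ε
    rw [dist_comm, dist_eq_norm]
    exact hrd
  · obtain ⟨⟨x, δ⟩, hY, hp⟩ := hne
    exact ⟨x, hY.1, δ, hY, hp⟩
  · rintro x ⟨hxc, hxU⟩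
    obtain ⟨s, hs, hlim⟩ := mem_closure_iff_seq_limit.1 hxc
    choose δ hδ using hs
    have hbd : Bornology.IsBounded (range δ) := by
      have h1 : Bornology.IsBounded (range fun n => hh γ (s n)) :=
        Metric.isBounded_range_of_tendsto _ (((hh_cont γ).tendsto x).comp hlim)
      obtain ⟨C, hC⟩ := h1.exists_norm_le
      rw [isBounded_iff_forall_norm_le]
      refine ⟨max C 1, ?_⟩
      rintro _ ⟨n, rfl⟩
      by_contra hcon
      push Not at hcon
      have h2 : ‖hh γ (s n)‖ ≤ C := hC _ ⟨n, rfl⟩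
      rw [← (hδ n).1.2, norm_pow] at h2
      have h3 : (1 : ℝ) ≤ ‖δ n‖ := le_trans (le_max_right _ _) hcon.le
      have h4 : ‖δ n‖ ≤ ‖δ n‖ ^ 4 := le_self_pow₀ h3 (by norm_num)
      have h5 : C ≤ max C 1 := le_max_left _ _
      linarith
    obtain ⟨a, -, φ, hφ, hlim2⟩ := tendsto_subseq_of_bounded hbd (fun n => mem_range_self n)
    have hlim3 : Tendsto (fun n => s (φ n)) atTop (𝓝 x) := hlim.comp hφ.tendsto_atTop
    have ha : a ^ 4 = hh γ x := by
      have h1 : Tendsto (fun n => (δ (φ n)) ^ 4) atTop (𝓝 (a ^ 4)) := hlim2.pow 4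
      have h2 : Tendsto (fun n => hh γ (s (φ n))) atTop (𝓝 (hh γ x)) :=
        ((hh_cont γ).tendsto x).comp hlim3
      have h3 : (fun n => (δ (φ n)) ^ 4) = fun n => hh γ (s (φ n)) := by
        funext n
        exact (hδ (φ n)).1.2
      rw [h3] at h1
      exact tendsto_nhds_unique h1 h2
    have hmem : (x, a) ∈ YY γ := ⟨hxU, ha⟩
    refine ⟨a, hmem, ?_⟩
    rcases huv hmem with h | h
    · exact h
    · exfalso
      have h1 : Tendsto (fun n => (s (φ n), δ (φ n))) atTop (𝓝 (x, a)) :=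
        hlim3.prodMk_nhds hlim2
      obtain ⟨n, hn⟩ := (h1.eventually (hv.mem_nhds h)).exists
      exact hemp ⟨_, (hδ (φ n)).1, (hδ (φ n)).2, hn⟩

lemma conn_YY {γ : ℂ} (hγ : γ ≠ 0) : IsConnected (YY γ) := by
  obtain ⟨x0, hx0, hr⟩ := exists_ram hγ
  refine ⟨⟨(x0, 0), hx0, by rw [hr]; norm_num⟩, ?_⟩
  intro u v hu hv huv hne1 hne2
  by_contra hemp
  have h1 := YY_half hu hv huv hne1 hemp hx0
  have h2 := YY_half hv hu (by rwa [union_comm]) hne2 (by rwa [inter_comm v u]) hx0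
  obtain ⟨δ1, k1, k1'⟩ := h1
  obtain ⟨δ2, k2, k2'⟩ := h2
  have e1 : δ1 = 0 := by
    have := k1.2
    change δ1 ^ 4 = hh γ x0 at this
    rw [hr] at this
    simpa using this
  have e2 : δ2 = 0 := by
    have := k2.2
    change δ2 ^ 4 = hh γ x0 at this
    rw [hr] at this
    simpa using this
  subst e1
  subst e2
  exact hemp ⟨_, k1, k1', k2'⟩

/-- the part of the cone over the complement of the base locus is connected -/
lemma conn_open {γ : ℂ} (hγ : γ ≠ 0) : IsConnected {v : Vec | v ∈ (XX γ).cone ∧ v.2 ∈ UU γ} := by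
  have h1 : IsConnected {s : ℂ | s ≠ 0} :=
    isConnected_compl_singleton_of_one_lt_rank (by rw [Complex.rank_real_complex]; norm_num) 0
  have h2 := (conn_YY hγ).prod h1
  have hA := Af_cont
  have hG := Gf_cont γ
  have hc : Continuous fun p : ((Fin 3 → ℂ) × ℂ) × ℂ =>
      ((p.2 • ![-2 * Gf γ p.1.1, Af p.1.1, p.1.2], p.1.1) : Vec) := by
    fun_prop
  have h3 := h2.image _ hc.continuousOn
  convert h3 using 1
  ext ⟨b, x⟩
  constructor
  · rintro ⟨hv, hx⟩
    obtain ⟨hb, hx0, hE, hF⟩ := mem_XX.1 hv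
    simp only at hb hx0 hE hF hx
    have hs : ∃ s : ℂ, b 0 = s * (-2 * Gf γ x) ∧ b 1 = s * Af x := by
      rcases hx with h | h
      · refine ⟨b 1 / Af x, ?_, by field_simp⟩
        field_simp
        linear_combination hF
      · refine ⟨b 0 / (-2 * Gf γ x), by field_simp, ?_⟩
        field_simp
        linear_combination hF
    obtain ⟨s, e0, e1⟩ := hs
    have hs0 : s ≠ 0 := by
      rintro rfl
      rw [e0, e1] at hE
      have h3 : b 2 = 0 := by simpa using hE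
      apply hb
      funext i
      fin_cases i
      · simpa using e0
      · simpa using e1
      · exact h3
    refine ⟨((x, b 2 / s), s), ⟨⟨hx, ?_⟩, hs0⟩, ?_⟩
    · change (b 2 / s) ^ 4 = hh γ x
      unfold hh
      rw [div_pow, div_eq_iff (pow_ne_zero _ hs0)]
      rw [e0, e1] at hE
      linear_combination hE
    · simp only [Prod.mk.injEq, and_true]
      funext i
      fin_cases i
      · simp [e0]
      · simp [e1]
      · simp
        field_simp
  · rintro ⟨⟨⟨x', δ⟩, s⟩, ⟨⟨hx, hδ⟩, hs⟩, he⟩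
    simp only [Prod.mk.injEq] at he
    obtain ⟨rfl, rfl⟩ := he
    simp only at hx hδ
    have hs0 : s ≠ 0 := hs
    refine ⟨mem_XX.2 ⟨?_, ?_, ?_, ?_⟩, hx⟩
    · intro h0
      have k0 := congrFun h0 0
      have k1 := congrFun h0 1
      simp [hs0] at k0 k1
      rcases hx with h | h
      · exact h k1
      · exact h k0
    · rintro rfl
      rcases hx with h | h
      · exact h (by simp [Af])
      · exact h (by simp [Gf])
    · simp only [Pi.smul_apply, smul_eq_mul, Matrix.cons_val_zero, Matrix.cons_val_one,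
        Matrix.cons_val]
      unfold hh at hδ
      linear_combination s ^ 4 * hδ
    · simp only [Pi.smul_apply, smul_eq_mul, Matrix.cons_val_zero, Matrix.cons_val_one]
      ring

/-- the linear form with given coefficients -/
noncomputable def lin3 (g : Fin 3 → ℂ) : (Fin 3 → ℂ) →L[ℂ] ℂ :=
  g 0 • ContinuousLinearMap.proj 0 + g 1 • ContinuousLinearMap.proj 1 +
    g 2 • ContinuousLinearMap.proj 2

lemma lin3_apply (g w : Fin 3 → ℂ) : lin3 g w = g 0 * w 0 + g 1 * w 1 + g 2 * w 2 := by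
  simp [lin3]

lemma Af_deriv (x : Fin 3 → ℂ) : HasStrictFDerivAt Af (lin3 (gA x)) x := by
  have p : ∀ i : Fin 3, HasStrictFDerivAt (fun x : Fin 3 → ℂ => x i)
      (ContinuousLinearMap.proj i : (Fin 3 → ℂ) →L[ℂ] ℂ) x := fun i =>
    (ContinuousLinearMap.proj i : (Fin 3 → ℂ) →L[ℂ] ℂ).hasStrictFDerivAt
  have h := ((((p 0).pow 240).mul ((p 2).pow 16)).add ((p 1).pow 256)).add
    (((p 0).pow 16).mul ((p 1).pow 240))
  refine (h.congr_fderiv ?_)
  ext w
  rw [lin3_apply]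
  simp [gA]
  ring

lemma Gf_deriv (γ : ℂ) (x : Fin 3 → ℂ) : HasStrictFDerivAt (Gf γ) (lin3 (gG γ x)) x := by
  have p : ∀ i : Fin 3, HasStrictFDerivAt (fun x : Fin 3 → ℂ => x i)
      (ContinuousLinearMap.proj i : (Fin 3 → ℂ) →L[ℂ] ℂ) x := fun i =>
    (ContinuousLinearMap.proj i : (Fin 3 → ℂ) →L[ℂ] ℂ).hasStrictFDerivAt
  have h := (((p 0).pow 256).add ((p 1).pow 256)).add
    (((p 2).pow 256).const_mul γ)
  refine (h.congr_fderiv ?_)
  ext w
  rw [lin3_apply]
  simp [gG]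
  ring

/-- the points over the base locus are limits of points over its complement -/
lemma base_closure {γ : ℂ} (hγ : Good γ) {v : Vec} (hv : v ∈ (XX γ).cone) :
    v ∈ closure {v : Vec | v ∈ (XX γ).cone ∧ v.2 ∈ UU γ} := by
  by_cases hU : v.2 ∈ UU γ
  · exact subset_closure ⟨hv, hU⟩
  obtain ⟨hb, hx, hE, hF⟩ := mem_XX.1 hv
  have hA0 : Af v.2 = 0 := by
    by_contra h
    exact hU (Or.inl h)
  have hG0 : Gf γ v.2 = 0 := by
    by_contra h
    exact hU (Or.inr h)
  have hb01 : v.1 0 ≠ 0 ∨ v.1 1 ≠ 0 := by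
    by_contra hcon
    push Not at hcon
    obtain ⟨h0, h1⟩ := hcon
    rw [h0, h1] at hE
    have h3 : v.1 2 = 0 := by simpa using hE
    apply hb
    funext i
    fin_cases i
    · exact h0
    · exact h1
    · exact h3
  have hd : HasStrictFDerivAt (fun x => (Af x, Gf γ x))
      ((lin3 (gA v.2)).prod (lin3 (gG γ v.2))) v.2 := (Af_deriv v.2).prodMk (Gf_deriv γ v.2)
  have hsurj : ((lin3 (gA v.2)).prod (lin3 (gG γ v.2)) :
      (Fin 3 → ℂ) →L[ℂ] ℂ × ℂ).range = ⊤ := by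
    by_contra hne
    obtain ⟨f, hf0, hf⟩ := Submodule.exists_le_ker_of_lt_top _ (lt_top_iff_ne_top.2 hne)
    have hf' : ∀ a c : ℂ, f (a, c) = a * f (1, 0) + c * f (0, 1) := by
      intro a c
      have : ((a, c) : ℂ × ℂ) = a • ((1, 0) : ℂ × ℂ) + c • ((0, 1) : ℂ × ℂ) := by
        simp
      rw [this, map_add, map_smul, map_smul, smul_eq_mul, smul_eq_mul]
    refine no_sing hγ v.2 (f (1, 0)) (f (0, 1)) hx ?_ (fun i => ?_) (Or.inl ⟨hA0, hG0⟩)
    · by_contra hcon
      push Not at hcon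
      apply hf0
      ext
      · simpa using hcon.1
      · simpa using hcon.2
    · have h1 : ((lin3 (gA v.2)).prod (lin3 (gG γ v.2))) (Pi.single i 1) ∈
          ((lin3 (gA v.2)).prod (lin3 (gG γ v.2)) : (Fin 3 → ℂ) →L[ℂ] ℂ × ℂ).range :=
        ⟨Pi.single i 1, rfl⟩
      have h2 := hf h1
      rw [LinearMap.mem_ker, ContinuousLinearMap.prod_apply, hf', lin3_apply, lin3_apply] at h2
      fin_cases i
      · simp at h2
        change f (1, 0) * gA v.2 0 + f (0, 1) * gG γ v.2 0 = 0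
        linear_combination h2
      · simp at h2
        change f (1, 0) * gA v.2 1 + f (0, 1) * gG γ v.2 1 = 0
        linear_combination h2
      · simp at h2
        change f (1, 0) * gA v.2 2 + f (0, 1) * gG γ v.2 2 = 0
        linear_combination h2
  have hmap := hd.map_nhds_eq_of_surj hsurj
  simp only [hA0, hG0] at hmap
  rw [mem_closure_iff_nhds]
  intro t ht
  have h1 : ∀ᶠ x in 𝓝 v.2, (v.1, x) ∈ t ∧ x ≠ 0 := by
    refine Filter.Eventually.and ?_ (isOpen_ne.mem_nhds hx)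
    have h2 : Tendsto (fun x : Fin 3 → ℂ => ((v.1, x) : Vec)) (𝓝 v.2) (𝓝 v) :=
      (Continuous.prodMk_right v.1).tendsto v.2
    exact h2 ht
  have h2 : (fun x => (Af x, Gf γ x)) '' {x | (v.1, x) ∈ t ∧ x ≠ 0} ∈ 𝓝 ((0, 0) : ℂ × ℂ) := by
    rw [← hmap]
    exact image_mem_map h1
  have h3 : Tendsto (fun s : ℂ => ((s * (-2 * v.1 1), s * v.1 0) : ℂ × ℂ)) (𝓝[≠] 0)
      (𝓝 ((0, 0) : ℂ × ℂ)) := by
    have : Continuous fun s : ℂ => ((s * (-2 * v.1 1), s * v.1 0) : ℂ × ℂ) := by fun_prop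
    have h4 := this.tendsto 0
    simp only [zero_mul] at h4
    exact h4.mono_left nhdsWithin_le_nhds
  obtain ⟨s, ⟨⟨x, ⟨hxt, hx0⟩, hxs⟩, hs⟩⟩ := ((h3.eventually h2).and self_mem_nhdsWithin).exists
  have hs0 : s ≠ 0 := hs
  simp only [Prod.mk.injEq] at hxs
  obtain ⟨e1, e2⟩ := hxs
  refine ⟨(v.1, x), hxt, mem_XX.2 ⟨hb, hx0, hE, ?_⟩, ?_⟩
  · simp only
    rw [e1, e2]
    ring
  · rcases hb01 with h | h
    · right
      change Gf γ x ≠ 0
      rw [e2]
      exact mul_ne_zero hs0 h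
    · left
      change Af x ≠ 0
      rw [e1]
      exact mul_ne_zero hs0 (mul_ne_zero (by norm_num) h)

/-- the surface is connected -/
theorem XX_connected {γ : ℂ} (hγ : Good γ) : (XX γ).Connected :=
  (conn_open hγ.ne).subset_closure (fun _ hv => hv.1) fun _ hv => base_closure hγ hv

end Pool.Agent.N154.CN
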