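import Pool.Agent.N154.CN.Sign

/-! The count of the intersection points. -/

set_option autoImplicit false

namespace Pool.Agent.N154.CN

open Pool.Agent.TH144.CN (Af Gf)

lemma card_roots_of {p : Polynomial ℂ}
    (h : ∀ y, p.eval y = 0 → (Polynomial.derivative p).eval y ≠ 0) :
    p.roots.toFinset.card = p.natDegree := by
  have hsep : p.Separable := by
    unfold Polynomial.Separable
    rw [Polynomial.isCoprime_iff_aeval_ne_zero_of_isAlgClosed (k := ℂ) (K := ℂ)]
    intro a
    rw [Polynomial.coe_aeval_eq_eval]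
    by_cases h1 : p.eval a = 0
    · exact Or.inr (h a h1)
    · exact Or.inl h1
  rw [Multiset.toFinset_card_of_nodup (Polynomial.nodup_roots hsep)]
  exact (IsAlgClosed.splits p).natDegree_eq_card_roots.symm

/-- the polynomial for the negative points -/
noncomputable def KP : Polynomial ℂ :=
  Polynomial.X ^ 256 + Polynomial.X ^ 240 + 1

/-- the polynomial for the positive points -/
noncomputable def FP : Polynomial ℂ :=
  (1 + Polynomial.X ^ 16) ^ 15 +
    Polynomial.X ^ 240 * (Polynomial.C 14 + Polynomial.C 15 * Polynomial.X ^ 16) ^ 16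

lemma eval_KP (y : ℂ) : KP.eval y = y ^ 256 + y ^ 240 + 1 := by
  unfold KP
  simp only [Polynomial.eval_add, Polynomial.eval_pow, Polynomial.eval_X, Polynomial.eval_one]

lemma eval_FP (y : ℂ) : FP.eval y = (1 + y ^ 16) ^ 15 + y ^ 240 * (14 + 15 * y ^ 16) ^ 16 := by
  unfold FP
  rw [Polynomial.eval_add, Polynomial.eval_pow, Polynomial.eval_add, Polynomial.eval_one,
    Polynomial.eval_pow, Polynomial.eval_X, Polynomial.eval_mul, Polynomial.eval_pow,
    Polynomial.eval_X, Polynomial.eval_pow, Polynomial.eval_add, Polynomial.eval_mul,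
    Polynomial.eval_C, Polynomial.eval_C, Polynomial.eval_pow, Polynomial.eval_X]

lemma eval_dKP (y : ℂ) : (Polynomial.derivative KP).eval y = 256 * y ^ 255 + 240 * y ^ 239 := by
  unfold KP
  simp
  ring

lemma eval_dFP (y : ℂ) : (Polynomial.derivative FP).eval y =
    15 * (1 + y ^ 16) ^ 14 * (16 * y ^ 15) + (240 * y ^ 239 * (14 + 15 * y ^ 16) ^ 16 +
      y ^ 240 * (16 * (14 + 15 * y ^ 16) ^ 15 * (15 * (16 * y ^ 15)))) := by
  unfold FP
  simp [Polynomial.derivative_pow]

lemma degree_KP : KP.natDegree = 256 := by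
  unfold KP
  compute_degree!

lemma degree_FP : FP.natDegree = 496 := by
  have h1 : (Polynomial.C 14 + Polynomial.C 15 * Polynomial.X ^ 16 : Polynomial ℂ).natDegree =
      16 := by
    compute_degree!
  have h2 : (Polynomial.X ^ 240 * (Polynomial.C 14 + Polynomial.C 15 * Polynomial.X ^ 16) ^ 16 :
      Polynomial ℂ).natDegree = 496 := by
    rw [Polynomial.natDegree_mul (pow_ne_zero _ Polynomial.X_ne_zero), Polynomial.natDegree_X_pow,
      Polynomial.natDegree_pow, h1]
    apply pow_ne_zero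
    intro h
    rw [h] at h1
    simp at h1
  have h3 : ((1 + Polynomial.X ^ 16) ^ 15 : Polynomial ℂ).natDegree ≤ 240 := by
    refine Polynomial.natDegree_pow_le.trans ?_
    have : (1 + Polynomial.X ^ 16 : Polynomial ℂ).natDegree ≤ 16 := by compute_degree
    omega
  unfold FP
  rw [Polynomial.natDegree_add_eq_right_of_natDegree_lt (by rw [h2]; omega), h2]

lemma algF {y u v : ℂ} (hu : u = 1 + y ^ 16) (hv : v = 14 + 15 * y ^ 16)
    (hF : u ^ 15 + y ^ 240 * v ^ 16 = 0) :
    u * (15 * u ^ 14 * (16 * y ^ 15) + (240 * y ^ 239 * v ^ 16 +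
      y ^ 240 * (16 * v ^ 15 * (15 * (16 * y ^ 15))))) =
      240 * y ^ 239 * v ^ 15 * (16 * (y ^ 16) ^ 2 + 31 * y ^ 16 + 14) := by
  have key : u * v + 16 * y ^ 16 * u - y ^ 16 * v = 16 * (y ^ 16) ^ 2 + 31 * y ^ 16 + 14 := by
    rw [hu, hv]
    ring
  linear_combination (240 * y ^ 15) * hF + 240 * y ^ 239 * v ^ 15 * key

lemma root_q {Y : ℂ} (hf : (1 + Y) ^ 15 + Y ^ 15 * (14 + 15 * Y) ^ 16 = 0) :
    16 * Y ^ 2 + 31 * Y + 14 ≠ 0 := by
  intro hq
  set s := 32 * Y + 31 with hs
  have hs2 : s ^ 2 = 65 := by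
    rw [hs]
    linear_combination 64 * hq
  have hsn : ‖s‖ ^ 2 = 65 := by
    rw [← norm_pow, hs2]
    norm_num
  have hs9 : ‖s‖ < 9 := by nlinarith [norm_nonneg s]
  have hs8 : 8 < ‖s‖ := by nlinarith [norm_nonneg s]
  have hu : 1 + Y ≠ 0 := by
    intro h
    have : Y = -1 := by linear_combination h
    rw [this] at hq
    norm_num at hq
  have h1 : (14 + 31 * Y) ^ 15 * (14 + 15 * Y) = -1 := by
    have h2 : Y * (14 + 15 * Y) = (1 + Y) * (14 + 31 * Y) := by linear_combination -hq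
    have h3 : (1 + Y) ^ 15 * ((14 + 31 * Y) ^ 15 * (14 + 15 * Y) + 1) = 0 := by
      have h4 : Y ^ 15 * (14 + 15 * Y) ^ 16 = (Y * (14 + 15 * Y)) ^ 15 * (14 + 15 * Y) := by
        rw [mul_pow]
        generalize 14 + 15 * Y = v
        ring
      rw [h4, h2, mul_pow] at hf
      linear_combination hf
    have h5 := (mul_eq_zero.1 h3).resolve_left (pow_ne_zero _ hu)
    linear_combination h5
  have h2 : 1 < ‖14 + 31 * Y‖ := by
    have e : 14 + 31 * Y = -((513 - 31 * s) / 32) := by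
      rw [hs]
      ring
    rw [e, norm_neg, norm_div]
    have e1 : ‖(32 : ℂ)‖ = 32 := by simp
    rw [e1, lt_div_iff₀ (by norm_num)]
    have e2 := norm_sub_norm_le (513 : ℂ) (31 * s)
    rw [norm_mul] at e2
    have e3 : ‖(513 : ℂ)‖ = 513 := by simp
    have e4 : ‖(31 : ℂ)‖ = 31 := by simp
    rw [e3, e4] at e2
    linarith
  have h3 : 1 < ‖14 + 15 * Y‖ := by
    have e : 14 + 15 * Y = (15 * s - 17) / 32 := by
      rw [hs]
      ring
    rw [e, norm_div]
    have e1 : ‖(32 : ℂ)‖ = 32 := by simp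
    rw [e1, lt_div_iff₀ (by norm_num)]
    have e2 := norm_sub_norm_le (15 * s) (17 : ℂ)
    rw [norm_mul] at e2
    have e3 : ‖(17 : ℂ)‖ = 17 := by simp
    have e4 : ‖(15 : ℂ)‖ = 15 := by simp
    rw [e3, e4] at e2
    linarith
  have h4 := congrArg norm h1
  rw [norm_mul, norm_pow, norm_neg, norm_one] at h4
  have h5 : 1 ≤ ‖14 + 31 * Y‖ ^ 15 := one_le_pow₀ h2.le
  nlinarith

lemma FP_root {y : ℂ} (h : FP.eval y = 0) : y ≠ 0 ∧ 1 + y ^ 16 ≠ 0 ∧ 14 + 15 * y ^ 16 ≠ 0 ∧
    16 * (y ^ 16) ^ 2 + 31 * y ^ 16 + 14 ≠ 0 := by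
  rw [eval_FP] at h
  have h240 : y ^ 240 = (y ^ 16) ^ 15 := by ring
  have hy : y ≠ 0 := by
    rintro rfl
    norm_num at h
  have hu : 1 + y ^ 16 ≠ 0 := by
    intro hu
    have h1 : y ^ 16 = -1 := by linear_combination hu
    rw [h240, h1] at h
    norm_num at h
  have hv : 14 + 15 * y ^ 16 ≠ 0 := by
    intro hv
    rw [hv] at h
    have h1 : (1 + y ^ 16) ^ 15 = 0 := by
      rw [zero_pow (by norm_num), mul_zero, add_zero] at h
      exact h
    exact hu (by simpa using h1)
  refine ⟨hy, hu, hv, ?_⟩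
  rw [h240] at h
  exact root_q h

lemma KP_root {y : ℂ} (h : KP.eval y = 0) : y ≠ 0 ∧ 16 * y ^ 16 + 15 ≠ 0 ∧
    14 * y ^ 16 + 13 ≠ 0 := by
  rw [eval_KP] at h
  have h1 : (y ^ 16) ^ 15 * (y ^ 16 + 1) + 1 = 0 := by linear_combination h
  refine ⟨?_, ?_, ?_⟩
  · rintro rfl
    norm_num at h
  · intro h2
    have h3 : y ^ 16 = -15 / 16 := by linear_combination (1 / 16) * h2
    rw [h3] at h1
    norm_num at h1
  · intro h2
    have h3 : y ^ 16 = -13 / 14 := by linear_combination (1 / 14) * h2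
    rw [h3] at h1
    norm_num at h1

lemma card_KP : KP.roots.toFinset.card = 256 := by
  rw [card_roots_of, degree_KP]
  intro y hy hd
  obtain ⟨h0, h15, -⟩ := KP_root hy
  rw [eval_dKP] at hd
  have h1 : 16 * y ^ 239 * (16 * y ^ 16 + 15) = 0 := by linear_combination hd
  exact mul_ne_zero (mul_ne_zero (by norm_num) (pow_ne_zero _ h0)) h15 h1

lemma card_FP : FP.roots.toFinset.card = 496 := by
  rw [card_roots_of, degree_FP]
  intro y hy hd
  obtain ⟨h0, -, hv, hq⟩ := FP_root hy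
  rw [eval_dFP] at hd
  rw [eval_FP] at hy
  have h1 := algF rfl rfl hy
  rw [hd, mul_zero] at h1
  exact mul_ne_zero (mul_ne_zero (mul_ne_zero (by norm_num) (pow_ne_zero _ h0))
    (pow_ne_zero _ hv)) hq h1.symm

lemma KP_ne : KP ≠ 0 := by
  intro h
  have := degree_KP
  rw [h] at this
  simp at this

lemma FP_ne : FP ≠ 0 := by
  intro h
  have := degree_FP
  rw [h] at this
  simp at this

open Classical in
/-- the affine coordinates of the positive points -/
noncomputable def Sp : Finset (ℂ × ℂ) :=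
  FP.roots.toFinset.image fun y => (y, -(1 + y ^ 16) / (14 + 15 * y ^ 16))

open Classical in
/-- the affine coordinates of the negative points -/
noncomputable def Sm : Finset (ℂ × ℂ) := KP.roots.toFinset ×ˢ {1, -1}

lemma card_Sp : Sp.card = 496 := by
  classical
  unfold Sp
  rw [Finset.card_image_of_injective _ fun a b h => congrArg Prod.fst h]
  convert card_FP

lemma card_Sm : Sm.card = 512 := by
  classical
  unfold Sm
  rw [Finset.card_product]
  have h1 : ({1, -1} : Finset ℂ).card = 2 := by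
    rw [Finset.card_insert_of_notMem, Finset.card_singleton]
    rw [Finset.mem_singleton]
    norm_num
  have h2 := card_KP
  have h3 : (KP.roots.toFinset.card) * ({1, -1} : Finset ℂ).card = 512 := by
    rw [h1, h2]
  convert h3

lemma mem_Sp {y z : ℂ} : (y, z) ∈ Sp ↔ z ^ 16 + y ^ 256 + y ^ 240 = 0 ∧ y ≠ 0 ∧
    15 * z ^ 16 + y ^ 240 + z ^ 15 = 0 := by
  classical
  unfold Sp
  rw [Finset.mem_image]
  constructor
  · rintro ⟨y', hy', he⟩
    rw [Multiset.mem_toFinset, Polynomial.mem_roots FP_ne, Polynomial.IsRoot.def] at hy'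
    simp only [Prod.mk.injEq] at he
    obtain ⟨rfl, he⟩ := he
    obtain ⟨h0, hu, hv, -⟩ := FP_root hy'
    rw [eval_FP] at hy'
    have hz : z * (14 + 15 * y' ^ 16) = -(1 + y' ^ 16) := by
      rw [← he]
      exact div_mul_cancel₀ _ hv
    have e240 : y' ^ 256 = y' ^ 240 * y' ^ 16 := by ring
    rw [e240]
    generalize y' ^ 240 = b at *
    have e1 : z ^ 15 = b * (14 + 15 * y' ^ 16) := by
      have h1 : (14 + 15 * y' ^ 16) ^ 15 * (z ^ 15 - b * (14 + 15 * y' ^ 16)) = 0 := by
        have h2 : (z * (14 + 15 * y' ^ 16)) ^ 15 = (-(1 + y' ^ 16)) ^ 15 := by rw [hz]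
        rw [mul_pow] at h2
        generalize y' ^ 16 = Y at *
        generalize 14 + 15 * Y = v at *
        generalize 1 + Y = u at *
        linear_combination h2 - hy'
      have h3 := (mul_eq_zero.1 h1).resolve_left (pow_ne_zero _ hv)
      linear_combination h3
    have e2 : z ^ 16 = -(b * (1 + y' ^ 16)) := by
      have : z ^ 16 = z * z ^ 15 := by ring
      rw [this, e1]
      linear_combination b * hz
    refine ⟨?_, h0, ?_⟩
    · rw [e2]
      ring
    · rw [e1, e2]
      ring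
  · rintro ⟨hA, hy, hg⟩
    have hb : y ^ 240 ≠ 0 := pow_ne_zero _ hy
    have e1 : z ^ 15 = y ^ 240 * (14 + 15 * y ^ 16) := by linear_combination hg - 15 * hA
    have e2 : z * (14 + 15 * y ^ 16) = -(1 + y ^ 16) := by
      have h1 : y ^ 240 * (z * (14 + 15 * y ^ 16) + (1 + y ^ 16)) = 0 := by
        linear_combination hA - z * e1
      have h2 := (mul_eq_zero.1 h1).resolve_left hb
      linear_combination h2
    have hv : 14 + 15 * y ^ 16 ≠ 0 := by
      intro hv
      rw [hv, mul_zero] at e2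
      have : (1 : ℂ) = 0 := by linear_combination -hv + 15 * e2
      norm_num at this
    refine ⟨y, ?_, ?_⟩
    · rw [Multiset.mem_toFinset, Polynomial.mem_roots FP_ne, Polynomial.IsRoot.def, eval_FP]
      have h2 : (z * (14 + 15 * y ^ 16)) ^ 15 = (-(1 + y ^ 16)) ^ 15 := by rw [e2]
      rw [mul_pow, e1] at h2
      generalize y ^ 240 = b at *
      generalize y ^ 16 = Y at *
      generalize 14 + 15 * Y = v at *
      generalize 1 + Y = u at *
      linear_combination h2
    · simp only [Prod.mk.injEq, true_and]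
      rw [div_eq_iff hv, e2]

lemma mem_Sm {y z : ℂ} : (y, z) ∈ Sm ↔ z ^ 16 + y ^ 256 + y ^ 240 = 0 ∧ y ≠ 0 ∧
    z ^ 2 = 1 := by
  classical
  unfold Sm
  have h1 : ((y, z) ∈ KP.roots.toFinset ×ˢ ({1, -1} : Finset ℂ)) ↔
      KP.eval y = 0 ∧ (z = 1 ∨ z = -1) := by
    rw [Finset.mem_product, Multiset.mem_toFinset, Polynomial.mem_roots KP_ne,
      Polynomial.IsRoot.def, Finset.mem_insert, Finset.mem_singleton]
  have h2 : z ^ 2 = 1 ↔ z = 1 ∨ z = -1 := sq_eq_one_iff
  have h3 : ((y, z) ∈ KP.roots.toFinset ×ˢ ({1, -1} : Finset ℂ)) ↔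
      z ^ 16 + y ^ 256 + y ^ 240 = 0 ∧ y ≠ 0 ∧ z ^ 2 = 1 := by
    rw [h1, ← h2]
    constructor
    · rintro ⟨h3, h4⟩
      have h5 : z ^ 16 = 1 := by
        have : z ^ 16 = (z ^ 2) ^ 8 := by ring
        rw [this, h4, one_pow]
      refine ⟨?_, (KP_root h3).1, h4⟩
      rw [eval_KP] at h3
      rw [h5]
      linear_combination h3
    · rintro ⟨h3, -, h4⟩
      have h5 : z ^ 16 = 1 := by
        have : z ^ 16 = (z ^ 2) ^ 8 := by ring
        rw [this, h4, one_pow]
      refine ⟨?_, h4⟩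
      rw [eval_KP]
      rw [h5] at h3
      linear_combination h3
  convert h3

end Pool.Agent.N154.CN
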