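import Pool.Agent.N154.CN.Irr

/-! The curve: irreducibility, tangent spaces, smooth points. -/

set_option autoImplicit false

open MvPolynomial Set

namespace Pool.Agent.N154.CN

open Pool.Agent.TH144.CN (B Y Ep Ap Gp Fp Af Gf)

/-- the curve -/
noncomputable def ZZ (ζ : ℂ) : ClosedSet where
  eqs := {B 1, B 2 + C (-ζ) * B 0, Ap}
  hom := by
    rintro G (rfl | rfl | rfl)
    · exact ⟨_, _, Pool.Agent.TH144.CN.B_hom 1⟩
    · refine ⟨1, 0, (Pool.Agent.TH144.CN.B_hom 2).add ?_⟩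
      have := (Pool.Agent.TH144.CN.C_hom (-ζ)).mul (Pool.Agent.TH144.CN.B_hom 0)
      simpa using this
    · exact ⟨_, _, Pool.Agent.TH144.CN.Ap_hom⟩

/-- the point of the first plane -/
def bs (ζ : ℂ) : Fin 3 → ℂ := ![1, 0, ζ]

lemma bs_ne (ζ : ℂ) : bs ζ ≠ 0 := by
  intro h
  have := congrFun h 0
  simp [bs] at this

lemma val_L (ζ : ℂ) (v : Vec) : val (B 2 + C (-ζ) * B 0) v = v.1 2 - ζ * v.1 0 := by
  simp [val, B]
  ring

lemma mem_ZZ {ζ : ℂ} {v : Vec} : v ∈ (ZZ ζ).cone ↔ v.1 ≠ 0 ∧ v.2 ≠ 0 ∧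
    v.1 1 = 0 ∧ v.1 2 - ζ * v.1 0 = 0 ∧ Af v.2 = 0 := by
  unfold ClosedSet.cone ZZ
  simp only [mem_insert_iff, mem_singleton_iff, forall_eq_or_imp, forall_eq, val_B, val_L, val_Ap,
    mem_ofPred_eq]

lemma ZZ_eq {ζ : ℂ} {v : Vec} (hv : v ∈ (ZZ ζ).cone) : v.1 = v.1 0 • bs ζ := by
  obtain ⟨_, _, h1, h2, _⟩ := mem_ZZ.1 hv
  funext i
  fin_cases i
  · simp [bs]
  · simp [bs, h1]
  · simp [bs]
    linear_combination h2

lemma ZZ_ne {ζ : ℂ} {v : Vec} (hv : v ∈ (ZZ ζ).cone) : v.1 0 ≠ 0 := by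
  intro h
  have h1 := ZZ_eq hv
  rw [h, zero_smul] at h1
  exact (mem_ZZ.1 hv).1 h1

lemma mem_ZZ_mk {ζ c : ℂ} {x : Fin 3 → ℂ} (hc : c ≠ 0) (hx : x ≠ 0) (hA : Af x = 0) :
    ((c • bs ζ, x) : Vec) ∈ (ZZ ζ).cone := by
  refine mem_ZZ.2 ⟨smul_ne_zero hc (bs_ne ζ), hx, ?_, ?_, hA⟩
  · simp [bs]
  · simp [bs]
    ring

lemma ZZ_sub_XX {ζ γ : ℂ} (hζ : ζ ^ 4 = -1) {v : Vec} (hv : v ∈ (ZZ ζ).cone) :
    v ∈ (XX γ).cone := by
  obtain ⟨hb, hx, h1, h2, hA⟩ := mem_ZZ.1 hv
  refine mem_XX.2 ⟨hb, hx, ?_, ?_⟩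
  · have h3 : v.1 2 = ζ * v.1 0 := by linear_combination h2
    rw [h1, h3]
    linear_combination (v.1 0) ^ 4 * hζ
  · rw [h1, hA]
    ring

theorem ZZ_points {ζ γ : ℂ} (hζ : ζ ^ 4 = -1) : (ZZ ζ).points ⊆ (XX γ).points := by
  rintro p ⟨v, hv, hp⟩
  exact ⟨v, ZZ_sub_XX hζ hv, hp⟩

/-! ### values and derivatives -/

lemma val_mul (G H : BiPoly) (v : Vec) : val (G * H) v = val G v * val H v := by
  simp [val]

lemma val_scale {G : BiPoly} {d e : ℕ} (h : BiHom G d e) (s t : ℂ) (v : Vec) :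
    val G (s • v.1, t • v.2) = s ^ d * t ^ e * val G v := by
  unfold val
  rw [eval_eq, eval_eq, Finset.mul_sum]
  refine Finset.sum_congr rfl fun m hm => ?_
  have hw := h (mem_support_iff.1 hm)
  rw [Finsupp.weight_apply, Finsupp.sum_fintype _ _ (by simp), Fintype.sum_sum_type] at hw
  simp only [Sum.elim_inl, Sum.elim_inr, Prod.smul_mk, smul_eq_mul, mul_one, mul_zero,
    Fin.sum_univ_three, Prod.mk_add_mk, Prod.mk.injEq, add_zero, zero_add] at hw
  obtain ⟨hd, he⟩ := hw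
  have h1 : ∀ a : Fin 3 ⊕ Fin 3 → ℂ, ∏ i ∈ m.support, a i ^ m i = ∏ i, a i ^ m i := by
    intro a
    apply Finset.prod_subset (Finset.subset_univ _)
    intro i _ hi
    rw [Finsupp.notMem_support_iff.1 hi, pow_zero]
  rw [h1, h1, Fintype.prod_sum_type, Fintype.prod_sum_type]
  simp only [Sum.elim_inl, Sum.elim_inr, Fin.prod_univ_three, Pi.smul_apply, smul_eq_mul, mul_pow]
  rw [← hd, ← he, pow_add, pow_add, pow_add, pow_add]
  ring

lemma hasDerivAt_val (G : BiPoly) (v w : Vec) :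
    HasDerivAt (fun s : ℂ => val G (v + s • w)) (dval G v w) 0 := by
  have hX : ∀ n : Fin 3 ⊕ Fin 3, HasDerivAt (fun s : ℂ => val (X n) (v + s • w))
      (dval (X n) v w) 0 := by
    intro n
    rcases n with n | n
    · have h1 : dval (X (Sum.inl n)) v w = w.1 n := dval_B n v w
      rw [h1]
      have h2 : (fun s : ℂ => val (X (Sum.inl n)) (v + s • w)) = fun s => v.1 n + s * w.1 n := by
        funext s
        simp [val]
      rw [h2]
      simpa using ((hasDerivAt_id (0 : ℂ)).mul_const (w.1 n)).const_add (v.1 n)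
    · have h1 : dval (X (Sum.inr n)) v w = w.2 n := by
        simp only [dval, val, pderiv_X]
        fin_cases n <;> simp [Fin.sum_univ_three]
      rw [h1]
      have h2 : (fun s : ℂ => val (X (Sum.inr n)) (v + s • w)) = fun s => v.2 n + s * w.2 n := by
        funext s
        simp [val]
      rw [h2]
      simpa using ((hasDerivAt_id (0 : ℂ)).mul_const (w.2 n)).const_add (v.2 n)
  induction G using MvPolynomial.induction_on with
  | C a =>
    rw [dval_C]
    have h2 : (fun s : ℂ => val (C a) (v + s • w)) = fun _ => a := by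
      funext s
      simp [val]
    rw [h2]
    exact hasDerivAt_const _ _
  | add p q hp hq =>
    rw [dval_addP]
    have h2 : (fun s : ℂ => val (p + q) (v + s • w)) =
        (fun s => val p (v + s • w)) + fun s => val q (v + s • w) := by
      funext s
      simp [val]
    rw [h2]
    exact hp.add hq
  | mul_X p n hp =>
    rw [dval_mul]
    have h2 : (fun s : ℂ => val (p * X n) (v + s • w)) =
        (fun s => val p (v + s • w)) * fun s => val (X n) (v + s • w) := by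
      funext s
      rw [Pi.mul_apply, val_mul]
    rw [h2]
    have h3 := hp.mul (hX n)
    simp only [zero_smul, add_zero] at h3
    refine h3.congr_deriv ?_
    ring

/-- the restriction of a polynomial to the plane `b = bs ζ` -/
noncomputable def rs (ζ : ℂ) : BiPoly →+* MvPolynomial (Fin 3) ℂ :=
  eval₂Hom C (Sum.elim ![1, 0, C ζ] X)

lemma eval_rs (ζ : ℂ) (G : BiPoly) (x : Fin 3 → ℂ) : eval x (rs ζ G) = val G (bs ζ, x) := by
  have h : (eval x).comp (rs ζ) = eval (Sum.elim (bs ζ) x) := by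
    apply MvPolynomial.ringHom_ext
    · intro c
      simp [rs]
    · rintro (i | i)
      · fin_cases i <;> simp [rs, bs]
      · simp [rs]
  exact congrArg (fun f => f G) h

lemma dvd_rs {ζ : ℂ} {G : BiPoly} (h : (ZZ ζ).Vanishes G) : A3 ∣ rs ζ G := by
  apply dvd_of_vanish
  intro x hx hA
  rw [eval_rs]
  have h1 := h _ (mem_ZZ_mk (ζ := ζ) one_ne_zero hx hA)
  rwa [one_smul] at h1

lemma val_of_dvd {ζ : ℂ} {G : BiPoly} {d e : ℕ} (hG : BiHom G d e) {Q : MvPolynomial (Fin 3) ℂ}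
    (hQ : rs ζ G = A3 * Q) (c : ℂ) (x : Fin 3 → ℂ) :
    val G (c • bs ζ, x) = c ^ d * (Af x * eval x Q) := by
  have h1 := val_scale hG c 1 (bs ζ, x)
  simp only [one_smul, one_pow, mul_one] at h1
  rw [h1, ← eval_rs, hQ, map_mul, eval_A3]

lemma vanishes_of_dvd {ζ : ℂ} {G : BiPoly} {d e : ℕ} (hG : BiHom G d e) (h : A3 ∣ rs ζ G) :
    (ZZ ζ).Vanishes G := by
  obtain ⟨Q, hQ⟩ := h
  intro v hv
  have h1 : v = (v.1 0 • bs ζ, v.2) := Prod.ext (ZZ_eq hv) rfl
  rw [h1, val_of_dvd hG hQ, (mem_ZZ.1 hv).2.2.2.2, zero_mul, mul_zero]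

theorem ZZ_irred (ζ : ℂ) : (ZZ ζ).Irred := by
  refine ⟨⟨_, mem_ZZ_mk (ζ := ζ) (x := ![1, 0, 0]) one_ne_zero ?_ ?_⟩, ?_⟩
  · intro h
    have := congrFun h 0
    simp at this
  · simp [Af]
  · intro G H d e d' e' hG hH h
    have h1 := dvd_rs h
    rw [map_mul] at h1
    rcases A3_prime.dvd_or_dvd h1 with h2 | h2
    · exact Or.inl (vanishes_of_dvd hG h2)
    · exact Or.inr (vanishes_of_dvd hH h2)

/-! ### tangent spaces -/

/-- the pairing of vectors -/
def dot3 (g w : Fin 3 → ℂ) : ℂ := g 0 * w 0 + g 1 * w 1 + g 2 * w 2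

lemma mem_tangent_ZZ {ζ : ℂ} {v : Vec} (hv : v ∈ (ZZ ζ).cone) (w : Vec) :
    w ∈ (ZZ ζ).tangent v ↔ w.1 1 = 0 ∧ w.1 2 - ζ * w.1 0 = 0 ∧ dot3 (gA v.2) w.2 = 0 := by
  constructor
  · intro h
    refine ⟨?_, ?_, ?_⟩
    · have h1 := h (B 1) 1 0 (Pool.Agent.TH144.CN.B_hom 1) fun u hu => by
        rw [val_B]
        exact (mem_ZZ.1 hu).2.2.1
      rwa [dval_B] at h1
    · have h1 := h (B 2 + C (-ζ) * B 0) 1 0 (by
          refine (Pool.Agent.TH144.CN.B_hom 2).add ?_
          have := (Pool.Agent.TH144.CN.C_hom (-ζ)).mul (Pool.Agent.TH144.CN.B_hom 0)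
          simpa using this) fun u hu => by
        rw [val_L]
        exact (mem_ZZ.1 hu).2.2.2.1
      rw [dval_addP, dval_mul, dval_B, dval_B, dval_C] at h1
      simp [val] at h1
      linear_combination h1
    · have h1 := h Ap 0 256 Pool.Agent.TH144.CN.Ap_hom fun u hu => by
        rw [val_Ap]
        exact (mem_ZZ.1 hu).2.2.2.2
      rwa [dval_Ap] at h1
  · rintro ⟨h1, h2, h3⟩ G d e hG hV
    obtain ⟨Q, hQ⟩ := dvd_rs hV
    have hd := hasDerivAt_val G v w
    have hw : w.1 = w.1 0 • bs ζ := by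
      funext i
      fin_cases i
      · simp [bs]
      · simp [bs, h1]
      · simp [bs]
        linear_combination h2
    have hf : (fun s : ℂ => val G (v + s • w)) = fun s : ℂ =>
        (v.1 0 + s * w.1 0) ^ d * (Af (v.2 + s • w.2) * eval (v.2 + s • w.2) Q) := by
      funext s
      rw [← val_of_dvd hG hQ]
      congr 1
      refine Prod.ext ?_ rfl
      rw [add_smul, mul_smul, ← hw, ← ZZ_eq hv]
      rfl
    rw [hf] at hd
    have hA : HasDerivAt (fun s : ℂ => Af (v.2 + s • w.2)) 0 0 := by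
      have h4 := hasDerivAt_val Ap v w
      rw [dval_Ap] at h4
      have h5 : (fun s : ℂ => val Ap (v + s • w)) = fun s : ℂ => Af (v.2 + s • w.2) := by
        funext s
        rw [val_Ap]
        rfl
      rw [h5] at h4
      refine h4.congr_deriv ?_
      exact h3
    have hc : HasDerivAt (fun s : ℂ => (v.1 0 + s * w.1 0) ^ d) _ 0 :=
      (((hasDerivAt_id (0 : ℂ)).mul_const (w.1 0)).const_add (v.1 0)).pow d
    have hQd : DifferentiableAt ℂ (fun s : ℂ => eval (v.2 + s • w.2) Q) 0 := by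
      have h6 : (fun s : ℂ => eval (v.2 + s • w.2) Q) =
          fun s : ℂ => val (rename Sum.inr Q) (v + s • w) := by
        funext s
        unfold val
        rw [eval_rename]
        congr 1
      rw [h6]
      exact (hasDerivAt_val _ v w).differentiableAt
    have hprod := hc.mul (hA.mul hQd.hasDerivAt)
    have huniq := hd.unique hprod
    rw [huniq]
    simp only [zero_smul, add_zero, Pi.mul_apply]
    rw [(mem_ZZ.1 hv).2.2.2.2]
    ring

lemma dot3_gA (x : Fin 3 → ℂ) : dot3 (gA x) x = 256 * Af x := by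
  simp only [dot3, gA, Af, Matrix.cons_val_zero, Matrix.cons_val_one, Matrix.cons_val]
  ring

/-- the gradient of `A` on the curve -/
lemma gA_eq_zero_iff {x : Fin 3 → ℂ} (hA : Af x = 0) : gA x = 0 ↔ x 1 = 0 := by
  constructor
  · intro h
    have h0 := congrFun h 0
    have h1 := congrFun h 1
    have h2 := congrFun h 2
    simp only [gA, Matrix.cons_val_zero, Matrix.cons_val_one, Matrix.cons_val,
      Pi.zero_apply] at h0 h1 h2
    by_cases hx0 : x 0 = 0
    · rw [hx0] at h1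
      have : x 1 ^ 255 = 0 := by linear_combination (1 / 256) * h1
      simpa using this
    · have hx2 : x 2 = 0 := by simpa [hx0] using h2
      rw [hx2] at h0
      have : x 0 ^ 15 * x 1 ^ 240 = 0 := by linear_combination (1 / 16) * h0
      simpa [hx0] using this
  · intro h1
    have h2 : x 0 ^ 240 * x 2 ^ 16 = 0 := by
      unfold Af at hA
      rw [h1] at hA
      linear_combination hA
    have h3 : x 0 = 0 ∨ x 2 = 0 := by simpa using h2
    funext i
    rcases h3 with h3 | h3 <;> fin_cases i <;> simp [gA, h1, h3]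

/-- the equations of the tangent space -/
noncomputable def tanL (ζ : ℂ) (g : Fin 3 → ℂ) : Vec →ₗ[ℂ] (Fin 3 → ℂ) where
  toFun w := ![w.1 1, w.1 2 - ζ * w.1 0, dot3 g w.2]
  map_add' w u := by
    funext i
    fin_cases i <;> simp [dot3] <;> ring
  map_smul' c w := by
    funext i
    fin_cases i <;> simp [dot3] <;> ring

lemma tangent_eq_ker {ζ : ℂ} {v : Vec} (hv : v ∈ (ZZ ζ).cone) :
    (ZZ ζ).tangent v = LinearMap.ker (tanL ζ (gA v.2)) := by
  ext w
  rw [mem_tangent_ZZ hv, LinearMap.mem_ker]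
  constructor
  · rintro ⟨h1, h2, h3⟩
    funext i
    fin_cases i
    · exact h1
    · exact h2
    · exact h3
  · intro h
    exact ⟨congrFun h 0, congrFun h 1, congrFun h 2⟩

lemma finrank_Vec : Module.finrank ℂ Vec = 6 := by
  rw [Module.finrank_prod, Module.finrank_fin_fun]

lemma finrank_ker {ζ : ℂ} {g : Fin 3 → ℂ} (hg : g ≠ 0) :
    Module.finrank ℂ (LinearMap.ker (tanL ζ g)) = 3 := by
  have h1 := LinearMap.finrank_range_add_finrank_ker (tanL ζ g)
  rw [finrank_Vec] at h1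
  have h2 : LinearMap.range (tanL ζ g) = ⊤ := by
    rw [LinearMap.range_eq_top]
    intro c
    obtain ⟨i, hi⟩ := Function.ne_iff.1 hg
    refine ⟨(![0, c 0, c 1], Pi.single i (c 2 / g i)), ?_⟩
    have hi' : g i ≠ 0 := hi
    funext j
    fin_cases j
    · simp [tanL]
    · simp [tanL]
    · fin_cases i <;> simp [tanL, dot3] <;> exact mul_div_cancel₀ (c 2) hi'
  rw [h2, finrank_top, Module.finrank_fin_fun] at h1
  omega

lemma finrank_ker_zero {ζ : ℂ} : Module.finrank ℂ (LinearMap.ker (tanL ζ 0)) = 4 := by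
  have h1 := LinearMap.finrank_range_add_finrank_ker (tanL ζ 0)
  rw [finrank_Vec] at h1
  have h2 : LinearMap.range (tanL ζ 0) = LinearMap.ker (LinearMap.proj 2 : (Fin 3 → ℂ) →ₗ[ℂ] ℂ) := by
    ext c
    rw [LinearMap.mem_range, LinearMap.mem_ker, LinearMap.proj_apply]
    constructor
    · rintro ⟨w, rfl⟩
      simp [tanL, dot3]
    · intro hc
      refine ⟨(![0, c 0, c 1], 0), ?_⟩
      funext j
      fin_cases j
      · simp [tanL]
      · simp [tanL]
      · simp [tanL, dot3, hc]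
  have h3 := LinearMap.finrank_range_add_finrank_ker (LinearMap.proj 2 : (Fin 3 → ℂ) →ₗ[ℂ] ℂ)
  have h4 : LinearMap.range (LinearMap.proj 2 : (Fin 3 → ℂ) →ₗ[ℂ] ℂ) = ⊤ := by
    rw [LinearMap.range_eq_top]
    exact fun c => ⟨fun _ => c, rfl⟩
  rw [h4, finrank_top, Module.finrank_self, Module.finrank_fin_fun] at h3
  rw [h2] at h1
  omega

lemma finrank_tangent {ζ : ℂ} {v : Vec} (hv : v ∈ (ZZ ζ).cone) :
    Module.finrank ℂ ((ZZ ζ).tangent v) = if v.2 1 = 0 then 4 else 3 := by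
  obtain ⟨_, _, _, _, hA⟩ := mem_ZZ.1 hv
  rw [tangent_eq_ker hv]
  split_ifs with h
  · rw [(gA_eq_zero_iff hA).2 h]
    exact finrank_ker_zero
  · exact finrank_ker fun h2 => h ((gA_eq_zero_iff hA).1 h2)

/-- the smooth points of the curve -/
lemma regular_iff {ζ : ℂ} {v : Vec} : (ZZ ζ).RegularAt v ↔ v ∈ (ZZ ζ).cone ∧ v.2 1 ≠ 0 := by
  constructor
  · rintro ⟨hv, h⟩
    refine ⟨hv, fun h1 => ?_⟩
    obtain ⟨ω, hω⟩ := IsAlgClosed.exists_pow_nat_eq (-1 : ℂ) (n := 16) (by norm_num)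
    have hω0 : ω ≠ 0 := by
      rintro rfl
      norm_num at hω
    have hu : ((1 : ℂ) • bs ζ, (![1, ω, 0] : Fin 3 → ℂ)) ∈ (ZZ ζ).cone := by
      apply mem_ZZ_mk one_ne_zero
      · intro h
        have := congrFun h 0
        simp at this
      · simp [Af]
        have : ω ^ 256 + ω ^ 240 = ω ^ 240 * (ω ^ 16 + 1) := by ring
        rw [this, hω]
        ring
    have h2 := h _ hu
    rw [finrank_tangent hv, finrank_tangent hu, if_pos h1, if_neg (by simpa using hω0)] at h2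
    omega
  · rintro ⟨hv, h1⟩
    refine ⟨hv, fun u hu => ?_⟩
    rw [finrank_tangent hv, finrank_tangent hu, if_neg h1]
    split_ifs <;> omega

lemma tangent_le {ζ γ : ℂ} (hζ : ζ ^ 4 = -1) (v : Vec) : (ZZ ζ).tangent v ≤ (XX γ).tangent v :=
  fun _ hw G d e hG hV => hw G d e hG fun u hu => hV u (ZZ_sub_XX hζ hu)

end Pool.Agent.N154.CN
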