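import Mathlib

/-!
# Definitions

Closed subsets of `P² × P²`, smooth surfaces, the Kobayashi pseudodistance, tangent spaces, the
conormal variety `T*_Z X` of a closed irreducible subset `Z` of a projective manifold `X`, and the
intersection number of `T*_Z X` with the zero section of `T*X`.
-/

set_option autoImplicit false

open MvPolynomial Metric Filter Topology
open scoped LinearAlgebra.Projectivization

namespace Pool.Agent.N154.CN

/-- The complex projective plane. -/
abbrev P2 : Type := ℙ ℂ (Fin 3 → ℂ)

/-- Pairs of vectors; homogeneous coordinates of points of `P² × P²`, tangent vectors and covectors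
are pairs of vectors. -/
abbrev Vec : Type := (Fin 3 → ℂ) × (Fin 3 → ℂ)

/-- `v` is a pair of vectors of homogeneous coordinates of the point `p` of `P² × P²`. -/
def IsCoord (p : P2 × P2) (v : Vec) : Prop :=
  ∃ (h1 : v.1 ≠ 0) (h2 : v.2 ≠ 0), p = (Projectivization.mk ℂ v.1 h1, Projectivization.mk ℂ v.2 h2)

/-- Polynomials in the homogeneous coordinates of the first and of the second factor. -/
abbrev BiPoly : Type := MvPolynomial (Fin 3 ⊕ Fin 3) ℂ

/-- `G` is homogeneous of degree `d` in the first and of degree `e` in the second group of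
variables. -/
def BiHom (G : BiPoly) (d e : ℕ) : Prop :=
  IsWeightedHomogeneous
    (Sum.elim (fun _ => ((1 : ℕ), (0 : ℕ))) fun _ => ((0 : ℕ), (1 : ℕ))) G (d, e)

/-- The value of `G` at `v`. -/
noncomputable def val (G : BiPoly) (v : Vec) : ℂ := eval (Sum.elim v.1 v.2) G

/-- The differential of `G` at `v`, applied to the vector `w`. -/
noncomputable def dval (G : BiPoly) (v w : Vec) : ℂ :=
  ∑ i, w.1 i * val (pderiv (Sum.inl i) G) v + ∑ i, w.2 i * val (pderiv (Sum.inr i) G) v

theorem dval_zero (G : BiPoly) (v : Vec) : dval G v 0 = 0 := by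
  simp [dval]

theorem dval_add (G : BiPoly) (v w u : Vec) : dval G v (w + u) = dval G v w + dval G v u := by
  simp only [dval, Prod.fst_add, Prod.snd_add, Pi.add_apply, add_mul, Finset.sum_add_distrib]
  ring

theorem dval_smul (G : BiPoly) (v w : Vec) (c : ℂ) : dval G v (c • w) = c * dval G v w := by
  simp only [dval, Prod.smul_fst, Prod.smul_snd, Pi.smul_apply, smul_eq_mul, mul_assoc,
    ← Finset.mul_sum]
  ring

/-- A closed algebraic subset of `P² × P²`, given by bihomogeneous equations. -/
structure ClosedSet where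
  eqs : Set BiPoly
  hom : ∀ G ∈ eqs, ∃ d e, BiHom G d e

namespace ClosedSet

variable (X : ClosedSet)

/-- The cone of `X`: all pairs of homogeneous coordinate vectors of points of `X`. -/
def cone : Set Vec := {v | v.1 ≠ 0 ∧ v.2 ≠ 0 ∧ ∀ G ∈ X.eqs, val G v = 0}

/-- The set of points of `X`. -/
def points : Set (P2 × P2) := {p | ∃ v ∈ X.cone, IsCoord p v}

/-- `X` is a smooth surface: it is the complete intersection of two hypersurfaces `E = 0`, `F = 0`
whose differentials are linearly independent at all points of `X` (Jacobian criterion). -/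
def SmoothSurface : Prop :=
  ∃ E F : BiPoly, X.eqs = {E, F} ∧ ∀ v ∈ X.cone, ∀ s t : ℂ,
    (∀ w, s * dval E v w + t * dval F v w = 0) → s = 0 ∧ t = 0

/-- `X` is connected. Stated for the cone, a principal bundle over `X` with the connected group
`(ℂ \ {0})²`; it is connected iff `X` is. -/
def Connected : Prop := IsConnected X.cone

/-- The polynomial `G` vanishes on `X`. -/
def Vanishes (G : BiPoly) : Prop := ∀ v ∈ X.cone, val G v = 0

/-- `X` is irreducible: it is nonempty, and if the product of two bihomogeneous polynomials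
vanishes on `X`, then one of them does. -/
def Irred : Prop :=
  X.cone.Nonempty ∧ ∀ (G H : BiPoly) (d e d' e' : ℕ), BiHom G d e → BiHom H d' e' →
    X.Vanishes (G * H) → X.Vanishes G ∨ X.Vanishes H

/-- The Zariski tangent space of the cone of `X` at `v`: the common zeros of the differentials of
all bihomogeneous polynomials that vanish on `X`. For a point `x` of `X` with the coordinates
`v = (b, x)` this space contains the radial vectors `(b, 0)` and `(0, x)`, and its quotient by them
is the tangent space of `X` at the point. -/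
def tangent (v : Vec) : Submodule ℂ Vec where
  carrier := {w | ∀ (G : BiPoly) (d e : ℕ), BiHom G d e → X.Vanishes G → dval G v w = 0}
  zero_mem' := fun G _ _ _ _ => dval_zero G v
  add_mem' := fun hw hu G d e hG hX => by
    rw [dval_add, hw G d e hG hX, hu G d e hG hX, add_zero]
  smul_mem' := fun c _ hw G d e hG hX => by
    rw [dval_smul, hw G d e hG hX, mul_zero]

/-- `v` is a smooth point of the irreducible closed set `X`: the dimension of the tangent space is
minimal at `v`. -/
def RegularAt (v : Vec) : Prop :=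
  v ∈ X.cone ∧ ∀ u ∈ X.cone, Module.finrank ℂ (X.tangent v) ≤ Module.finrank ℂ (X.tangent u)

end ClosedSet

/-! ### The Kobayashi pseudodistance -/

/-- `f` is a holomorphic map from the open set `U` to `P² × P²`: near every point of `U` it is
given by holomorphic homogeneous coordinates. -/
def HolomorphicOn (U : Set ℂ) (f : ℂ → P2 × P2) : Prop :=
  ∀ z ∈ U, ∃ (V : Set ℂ) (v : ℂ → Vec), IsOpen V ∧ z ∈ V ∧ DifferentiableOn ℂ v V ∧
    ∀ w ∈ V, IsCoord (f w) (v w)

/-- The Poincaré distance of two points of the unit disc (curvature `-1`). -/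
noncomputable def poincareDist (s t : ℂ) : ℝ :=
  Real.log ((1 + ‖s - t‖ / ‖1 - (starRingEnd ℂ) s * t‖) /
    (1 - ‖s - t‖ / ‖1 - (starRingEnd ℂ) s * t‖))

/-- `c` is the total Poincaré length of a chain of holomorphic discs in `S` from `p` to `q`. -/
def IsChainLength (S : Set (P2 × P2)) (p q : P2 × P2) (c : ℝ) : Prop :=
  ∃ (k : ℕ) (r : Fin (k + 1) → P2 × P2) (f : Fin k → ℂ → P2 × P2) (s t : Fin k → ℂ),
    r 0 = p ∧ r (Fin.last k) = q ∧
    (∀ i : Fin k, HolomorphicOn (ball 0 1) (f i) ∧ (∀ z ∈ ball (0 : ℂ) 1, f i z ∈ S) ∧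
      s i ∈ ball (0 : ℂ) 1 ∧ t i ∈ ball (0 : ℂ) 1 ∧
      f i (s i) = r i.castSucc ∧ f i (t i) = r i.succ) ∧
    c = ∑ i : Fin k, poincareDist (s i) (t i)

/-- The Kobayashi pseudodistance of `S`: the infimum of the lengths of the chains of holomorphic
discs in `S` that join the two points. -/
noncomputable def kobayashi (S : Set (P2 × P2)) (p q : P2 × P2) : ENNReal :=
  ⨅ (c : ℝ) (_ : IsChainLength S p q c), ENNReal.ofReal c

/-- `S` is Kobayashi hyperbolic: the Kobayashi pseudodistance separates the points of `S`. -/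
def KobayashiHyperbolic (S : Set (P2 × P2)) : Prop :=
  ∀ p ∈ S, ∀ q ∈ S, p ≠ q → 0 < kobayashi S p q

/-! ### The conormal variety and its intersection number with the zero section -/

/-- The pairing of a covector `η` and a vector `w`. -/
noncomputable def pair (η w : Vec) : ℂ := ∑ i, η.1 i * w.1 i + ∑ i, η.2 i * w.2 i

/-- The conormal bundle of the smooth part of `Z`: the pairs `(v, η)` of a smooth point `v` of `Z`
and a covector `η` at `v` that vanishes on the tangent space of `Z` at `v`. -/
def conormalBundle (Z : ClosedSet) : Set (Vec × Vec) :=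
  {p | Z.RegularAt p.1 ∧ ∀ w ∈ Z.tangent p.1, pair p.2 w = 0}

/-- The covector of `X` at the point `v`, given by the covector `η` of `P² × P²` (the restriction of
`η` to the tangent space of `X` at `v`), lies in the conormal variety `T*_Z X`, the closure in `T*X`
of the conormal bundle of the smooth part of `Z`. -/
def InConormal (X Z : ClosedSet) (v η : Vec) : Prop :=
  v ∈ Z.cone ∧ ∃ η' : Vec, (v, η') ∈ closure (conormalBundle Z) ∧
    ∀ w ∈ X.tangent v, pair η' w = pair η w

/-- `σ` is a smooth section of the holomorphic cotangent bundle of `P² × P²`, i.e. a `C^∞` form of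
type `(1, 0)`. It is given by a covector `σ v`, depending smoothly on the pair `v` of homogeneous
coordinate vectors, that vanishes on the radial vectors and has the right homogeneity. Its
restriction to `X` is a smooth section of `T*X`. -/
structure IsForm (σ : Vec → Vec) : Prop where
  smooth : ContDiffOn ℝ ((⊤ : ℕ∞) : WithTop ℕ∞) σ {v | v.1 ≠ 0 ∧ v.2 ≠ 0}
  homogeneous : ∀ v : Vec, v.1 ≠ 0 → v.2 ≠ 0 → ∀ s t : ℂ, s ≠ 0 → t ≠ 0 →
    σ (s • v.1, t • v.2) = (s⁻¹ • (σ v).1, t⁻¹ • (σ v).2)
  radial : ∀ v : Vec, v.1 ≠ 0 → v.2 ≠ 0 →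
    ∑ i, (σ v).1 i * v.1 i = 0 ∧ ∑ i, (σ v).2 i * v.2 i = 0

/-- `φ` is a local holomorphic parametrization of the `d`-dimensional manifold of the smooth points
of `Z` at its point `v`: a germ at `0` of a holomorphic map from `ℂ^d` to the cone of `Z` with
`φ(0) = v`, such that no nonzero vector is mapped by the differential at `0` to a radial vector. -/
structure Chart (Z : ClosedSet) (v : Vec) (d : ℕ) (φ : (Fin d → ℂ) → Vec) : Prop where
  regular : Z.RegularAt v
  dim : Module.finrank ℂ (Z.tangent v) = d + 2
  base : φ 0 = v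
  mem : ∀ᶠ t in 𝓝 (0 : Fin d → ℂ), φ t ∈ Z.cone
  hol : ∀ᶠ t in 𝓝 (0 : Fin d → ℂ), DifferentiableAt ℂ φ t
  imm : ∀ w : Fin d → ℂ, (∃ s t : ℂ, fderiv ℂ φ 0 w = (s • v.1, t • v.2)) → w = 0

/-- The coefficients, in the local coordinates given by `φ`, of the restriction of the form `σ` to
the manifold of the smooth points of `Z`. -/
noncomputable def coef (σ : Vec → Vec) {d : ℕ} (φ : (Fin d → ℂ) → Vec) (t : Fin d → ℂ) :
    Fin d → ℂ :=
  fun i => pair (σ (φ t)) (fderiv ℂ φ t (Pi.single i 1))

/-- The restriction of `σ` to the manifold of the smooth points of `Z` has a nondegenerate zero at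
`v`, and `ε = ±1` is its sign, the sign of the real Jacobian determinant of the coefficients. In
local coordinates `(y, z)` of `X` with `Z = {z = 0}` and the dual coordinates `(η, ζ)` the conormal
variety is `{z = 0, η = 0}`; so this says that the graph of `σ` and `T*_Z X` meet transversally
in the point `σ(v)` of `T*X`, and `ε` is the local intersection number. -/
def LocalSign (Z : ClosedSet) (σ : Vec → Vec) (v : Vec) (ε : ℤ) : Prop :=
  ∃ (d : ℕ) (φ : (Fin d → ℂ) → Vec) (L : (Fin d → ℂ) →L[ℝ] (Fin d → ℂ)), Chart Z v d φ ∧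
    coef σ φ 0 = 0 ∧ HasFDerivAt (coef σ φ) L 0 ∧
    ((0 < L.det ∧ ε = 1) ∨ (L.det < 0 ∧ ε = -1))

/-- The intersection number `T*_Z X · T*_X X` in `T*X` is equal to `m`. The zero section `T*_X X` is
homotopic to the graph of any smooth section of `T*X`. For some smooth section `σ` the graph meets
`T*_Z X` in finitely many points, all of them over smooth points of `Z`, the intersections are
transversal, and `m` is the number of the intersection points counted with their signs. -/
def IntersectionNumber (X Z : ClosedSet) (m : ℤ) : Prop :=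
  ∃ σ : Vec → Vec, IsForm σ ∧ ∃ (I : Finset (P2 × P2)) (ε : P2 × P2 → ℤ),
    (∀ (p : P2 × P2) (v : Vec), IsCoord p v → (p ∈ I ↔ InConormal X Z v (σ v))) ∧
    (∀ p ∈ I, ∃ v, IsCoord p v ∧ LocalSign Z σ v (ε p)) ∧
    m = ∑ p ∈ I, ε p

end Pool.Agent.N154.CN
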