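import Pool.Agent.N154.CN.Count
import Pool.Agent.N154.CN.Conn2

/-! The intersection number. -/

set_option autoImplicit false

open Set
open scoped LinearAlgebra.Projectivization

namespace Pool.Agent.N154.CN

open Pool.Agent.TH144.CN (Af Gf)

/-- the point with given affine coordinates -/
noncomputable def pt (ζ : ℂ) (s : ℂ × ℂ) : P2 × P2 :=
  (Projectivization.mk ℂ (bs ζ) (bs_ne ζ),
    Projectivization.mk ℂ ![1, s.1, s.2] (ne_vec s.1 s.2))

lemma pt_injective (ζ : ℂ) : Function.Injective (pt ζ) := by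
  rintro ⟨a, b⟩ ⟨a', b'⟩ h
  have h2 := congrArg Prod.snd h
  simp only [pt] at h2
  obtain ⟨c, hc⟩ := (Projectivization.mk_eq_mk_iff' ℂ _ _ _ _).1 h2
  have k0 := congrFun hc 0
  have k1 := congrFun hc 1
  have k2 := congrFun hc 2
  simp at k0 k1 k2
  rw [k0, one_mul] at k1 k2
  rw [k1, k2]

lemma isCoord_pt (ζ : ℂ) (s : ℂ × ℂ) : IsCoord (pt ζ s) (bs ζ, ![1, s.1, s.2]) :=
  ⟨bs_ne ζ, ne_vec s.1 s.2, rfl⟩

lemma gA_one (y z : ℂ) : gA ![1, y, z] 0 + gA ![1, y, z] 2 =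
    16 * (15 * z ^ 16 + y ^ 240 + z ^ 15) := by
  simp [gA]
  ring

lemma gA_smul (c : ℂ) (x : Fin 3 → ℂ) : gA (c • x) = c ^ 255 • gA x := by
  funext i
  fin_cases i
  · simp [gA]
    ring
  · simp [gA]
    ring
  · simp [gA]
    ring

lemma PP_smul (c : ℂ) (x : Fin 3 → ℂ) : PP (c • x) = c ^ 2 * PP x := by
  simp [PP]
  ring

lemma PP_one (y z : ℂ) : PP ![1, y, z] = z ^ 2 - 1 := by
  simp [PP]

open Classical in
/-- the affine coordinates of the intersection points -/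
lemma mem_S {y z : ℂ} : (y, z) ∈ Sp ∪ Sm ↔ Af ![1, y, z] = 0 ∧ y ≠ 0 ∧
    (PP ![1, y, z] = 0 ∨ gA ![1, y, z] 0 + gA ![1, y, z] 2 = 0) := by
  rw [Finset.mem_union, mem_Sp, mem_Sm, Af_one, PP_one, gA_one, sub_eq_zero]
  have h16 : (16 * (15 * z ^ 16 + y ^ 240 + z ^ 15) = 0) ↔
      15 * z ^ 16 + y ^ 240 + z ^ 15 = 0 := by simp
  rw [h16]
  tauto

open Classical in
lemma disj_S : Disjoint Sp Sm := by
  rw [Finset.disjoint_left]
  rintro ⟨y, z⟩ h1 h2
  obtain ⟨hA, hy, hg⟩ := mem_Sp.1 h1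
  obtain ⟨-, -, hz⟩ := mem_Sm.1 h2
  have hK : KP.eval y = 0 := by
    rw [eval_KP]
    have h5 : z ^ 16 = 1 := by
      have : z ^ 16 = (z ^ 2) ^ 8 := by ring
      rw [this, hz, one_pow]
    rw [h5] at hA
    linear_combination hA
  obtain ⟨-, h15, h13⟩ := KP_root hK
  have hb : y ^ 240 ≠ 0 := pow_ne_zero _ hy
  have e1 : z ^ 15 = y ^ 240 * (14 + 15 * y ^ 16) := by linear_combination hg - 15 * hA
  have e2 : z * (14 + 15 * y ^ 16) = -(1 + y ^ 16) := by
    have h1 : y ^ 240 * (z * (14 + 15 * y ^ 16) + (1 + y ^ 16)) = 0 := by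
      linear_combination hA - z * e1
    have h2 := (mul_eq_zero.1 h1).resolve_left hb
    linear_combination h2
  rcases sq_eq_one_iff.1 hz with rfl | rfl
  · apply h15
    linear_combination e2
  · apply h13
    linear_combination -e2

lemma card_sum : (Sp.card : ℤ) - Sm.card = -16 := by
  rw [card_Sp, card_Sm]
  norm_num

/-- the cone over a point of the curve -/
lemma coord_iff {ζ : ℂ} {p : P2 × P2} {v : Vec} (hp : IsCoord p v) {s : ℂ × ℂ} :
    p = pt ζ s ↔ ∃ a b : ℂ, v.1 = a • bs ζ ∧ v.2 = b • ![1, s.1, s.2] := by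
  obtain ⟨h1, h2, rfl⟩ := hp
  unfold pt
  rw [Prod.mk.injEq, Projectivization.mk_eq_mk_iff', Projectivization.mk_eq_mk_iff']
  constructor
  · rintro ⟨⟨a, ha⟩, ⟨b, hb⟩⟩
    exact ⟨a, b, ha.symm, hb.symm⟩
  · rintro ⟨a, b, ha, hb⟩
    exact ⟨⟨a, ha.symm⟩, ⟨b, hb.symm⟩⟩

open Classical in
lemma mem_I {γ ζ : ℂ} (hζ : ζ ^ 4 = -1) (p : P2 × P2) (v : Vec) (hp : IsCoord p v) :
    p ∈ (Sp ∪ Sm).image (pt ζ) ↔ InConormal (XX γ) (ZZ ζ) v (sg v) := by
  rw [inConormal_iff hζ, Finset.mem_image]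
  have hcoord := hp
  obtain ⟨h1, h2, -⟩ := hp
  constructor
  · rintro ⟨⟨y, z⟩, hs, he⟩
    obtain ⟨a, b, ha, hb⟩ := (coord_iff hcoord).1 he.symm
    simp only at hb
    obtain ⟨hA, hy, hc⟩ := mem_S.1 hs
    have ha0 : a ≠ 0 := by
      rintro rfl
      exact h1 (by rw [ha, zero_smul])
    have hb0 : b ≠ 0 := by
      rintro rfl
      exact h2 (by rw [hb, zero_smul])
    refine ⟨?_, ?_, ?_⟩
    · have h3 : v = (a • bs ζ, b • ![1, y, z]) := Prod.ext ha hb
      rw [h3]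
      refine mem_ZZ_mk ha0 (smul_ne_zero hb0 (ne_vec _ _)) ?_
      rw [Pool.Agent.TH144.CN.Af_smul, hA, mul_zero]
    · rw [hb]
      simp [hb0, hy]
    · rw [hb, PP_smul, gA_smul]
      rcases hc with hc | hc
      · left
        rw [hc, mul_zero]
      · right
        simp only [Pi.smul_apply, smul_eq_mul]
        rw [← mul_add, hc, mul_zero]
  · rintro ⟨hv, hx1, hc⟩
    obtain ⟨_, _, _, _, hA⟩ := mem_ZZ.1 hv
    have hx0 : v.2 0 ≠ 0 := by
      intro h0
      unfold Af at hA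
      rw [h0] at hA
      have : v.2 1 ^ 256 = 0 := by linear_combination hA
      exact hx1 (by simpa using this)
    have hv2 : v.2 = v.2 0 • ![1, v.2 1 / v.2 0, v.2 2 / v.2 0] := by
      funext i
      fin_cases i
      · simp
      · simp
        field_simp
      · simp
        field_simp
    refine ⟨(v.2 1 / v.2 0, v.2 2 / v.2 0), ?_, ((coord_iff hcoord).2
      ⟨v.1 0, v.2 0, ZZ_eq hv, hv2⟩).symm⟩
    rw [mem_S]
    rw [hv2, Pool.Agent.TH144.CN.Af_smul] at hA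
    rw [hv2, PP_smul, gA_smul] at hc
    refine ⟨(mul_eq_zero.1 hA).resolve_left (pow_ne_zero _ hx0), div_ne_zero hx1 hx0, ?_⟩
    rcases hc with hc | hc
    · left
      exact (mul_eq_zero.1 hc).resolve_left (pow_ne_zero _ hx0)
    · right
      simp only [Pi.smul_apply, smul_eq_mul] at hc
      rw [← mul_add] at hc
      exact (mul_eq_zero.1 hc).resolve_left (pow_ne_zero _ hx0)

lemma sign_Sp (ζ : ℂ) {y z : ℂ} (h : (y, z) ∈ Sp) :
    LocalSign (ZZ ζ) sg (bs ζ, ![1, y, z]) 1 := by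
  classical
  obtain ⟨hA, hy, hg⟩ := mem_Sp.1 h
  have hb : y ^ 240 ≠ 0 := pow_ne_zero _ hy
  have hz : z ≠ 0 := by
    rintro rfl
    apply hb
    linear_combination hg
  have e1 : z ^ 15 = y ^ 240 * (14 + 15 * y ^ 16) := by linear_combination hg - 15 * hA
  have e2 : z * (14 + 15 * y ^ 16) = -(1 + y ^ 16) := by
    have h1 : y ^ 240 * (z * (14 + 15 * y ^ 16) + (1 + y ^ 16)) = 0 := by
      linear_combination hA - z * e1
    have h2 := (mul_eq_zero.1 h1).resolve_left hb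
    linear_combination h2
  have hF : FP.eval y = 0 := by
    unfold Sp at h
    rw [Finset.mem_image] at h
    obtain ⟨y', hy', he⟩ := h
    rw [Multiset.mem_toFinset, Polynomial.mem_roots FP_ne, Polynomial.IsRoot.def] at hy'
    simp only [Prod.mk.injEq] at he
    rw [← he.1]
    exact hy'
  obtain ⟨ψ, h0, h1, h2⟩ := exists_psi hz hA
  have hbr : Branch y z ψ := ⟨hy, hz, h0, h1, h2⟩
  refine hbr.plus ζ ?_ ?_ (FP_root hF).2.2.2
  · intro hz2
    exact Finset.disjoint_left.1 disj_S h (mem_Sm.2 ⟨hA, hy, hz2⟩)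
  · linear_combination e2

lemma sign_Sm (ζ : ℂ) {y z : ℂ} (h : (y, z) ∈ Sm) :
    LocalSign (ZZ ζ) sg (bs ζ, ![1, y, z]) (-1) := by
  obtain ⟨hA, hy, hz2⟩ := mem_Sm.1 h
  have hz : z ≠ 0 := by
    rintro rfl
    norm_num at hz2
  have hK : KP.eval y = 0 := by
    rw [eval_KP]
    have h5 : z ^ 16 = 1 := by
      have : z ^ 16 = (z ^ 2) ^ 8 := by ring
      rw [this, hz2, one_pow]
    rw [h5] at hA
    linear_combination hA
  obtain ⟨-, h15, h13⟩ := KP_root hK
  obtain ⟨ψ, h0, h1, h2⟩ := exists_psi hz hA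
  have hbr : Branch y z ψ := ⟨hy, hz, h0, h1, h2⟩
  refine hbr.minus ζ hz2 ?_ h15
  rcases sq_eq_one_iff.1 hz2 with rfl | rfl
  · intro h3
    apply h15
    linear_combination h3
  · intro h3
    apply h13
    linear_combination -h3

/-- the intersection number of the conormal variety of the curve and the zero section -/
theorem ZZ_number {γ ζ : ℂ} (hζ : ζ ^ 4 = -1) : IntersectionNumber (XX γ) (ZZ ζ) (-16) := by
  classical
  refine ⟨sg, sg_form, (Sp ∪ Sm).image (pt ζ), fun p => if p ∈ Sp.image (pt ζ) then 1 else -1,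
    fun p v hp => mem_I hζ p v hp, ?_, ?_⟩
  · intro p hp
    rw [Finset.mem_image] at hp
    obtain ⟨⟨y, z⟩, hs, rfl⟩ := hp
    refine ⟨_, isCoord_pt ζ (y, z), ?_⟩
    rw [Finset.mem_union] at hs
    rcases hs with hs | hs
    · have h1 : pt ζ (y, z) ∈ Sp.image (pt ζ) := Finset.mem_image_of_mem _ hs
      simp only [h1, if_true]
      exact sign_Sp ζ hs
    · have h1 : pt ζ (y, z) ∉ Sp.image (pt ζ) := by
        intro h1
        rw [Finset.mem_image] at h1
        obtain ⟨s, h2, h3⟩ := h1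
        rw [pt_injective ζ h3] at h2
        exact Finset.disjoint_left.1 disj_S h2 hs
      simp only [h1, if_false]
      exact sign_Sm ζ hs
  · rw [Finset.sum_image fun a _ b _ h => pt_injective ζ h, Finset.sum_union disj_S]
    have h1 : ∑ s ∈ Sp, (if pt ζ s ∈ Sp.image (pt ζ) then (1 : ℤ) else -1) = Sp.card := by
      rw [Finset.sum_congr rfl fun s hs => if_pos (Finset.mem_image_of_mem _ hs)]
      simp
    have h2 : ∑ s ∈ Sm, (if pt ζ s ∈ Sp.image (pt ζ) then (1 : ℤ) else -1) = -Sm.card := by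
      rw [Finset.sum_congr rfl fun s hs => if_neg fun h1 => by
        rw [Finset.mem_image] at h1
        obtain ⟨s', h2, h3⟩ := h1
        rw [pt_injective ζ h3] at h2
        exact Finset.disjoint_left.1 disj_S h2 hs]
      simp
    rw [h1, h2, ← sub_eq_add_neg, card_sum]

end Pool.Agent.N154.CN
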