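import Pool.Agent.N154.CN.CurveZ

/-! The smooth form, and the intersection of its graph with the conormal variety. -/

set_option autoImplicit false

open Filter Topology Metric Set
open scoped ComplexConjugate

namespace Pool.Agent.N154.CN

open Pool.Agent.TH144.CN (B Y Ep Ap Gp Fp Af Gf Af_cont)

/-- the square of the norm -/
noncomputable def NN (x : Fin 3 → ℂ) : ℂ := x 0 * conj (x 0) + x 1 * conj (x 1) + x 2 * conj (x 2)

/-- the holomorphic form -/
def al (x : Fin 3 → ℂ) : Fin 3 → ℂ := ![-x 1, x 0 - x 2, x 1]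

/-- the factor that is made antiholomorphic -/
def PP (x : Fin 3 → ℂ) : ℂ := x 2 ^ 2 - x 0 ^ 2

/-- the smooth form -/
noncomputable def sg (v : Vec) : Vec := (0, (conj (PP v.2) / NN v.2 ^ 2) • al v.2)

lemma NN_eq (x : Fin 3 → ℂ) : NN x = ((‖x 0‖ ^ 2 + ‖x 1‖ ^ 2 + ‖x 2‖ ^ 2 : ℝ) : ℂ) := by
  simp only [NN, Complex.mul_conj, Complex.normSq_eq_norm_sq]
  push_cast
  ring

lemma NN_ne {x : Fin 3 → ℂ} (hx : x ≠ 0) : NN x ≠ 0 := by
  rw [NN_eq]
  intro h
  have h1 : ‖x 0‖ ^ 2 + ‖x 1‖ ^ 2 + ‖x 2‖ ^ 2 = 0 := by exact_mod_cast h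
  have h2 := sq_nonneg ‖x 0‖
  have h3 := sq_nonneg ‖x 1‖
  have h4 := sq_nonneg ‖x 2‖
  apply hx
  funext i
  fin_cases i
  · have : ‖x 0‖ ^ 2 = 0 := by linarith
    simpa using this
  · have : ‖x 1‖ ^ 2 = 0 := by linarith
    simpa using this
  · have : ‖x 2‖ ^ 2 = 0 := by linarith
    simpa using this

lemma contDiff_conj {f : Vec → ℂ} {n : WithTop ℕ∞} (h : ContDiff ℝ n f) :
    ContDiff ℝ n fun v => conj (f v) := Complex.conjCLE.contDiff.comp h

theorem sg_form : IsForm sg where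
  smooth := by
    have c : ∀ i : Fin 3, ContDiff ℝ ((⊤ : ℕ∞) : WithTop ℕ∞) fun v : Vec => v.2 i := by
      intro i
      fun_prop
    have cc := fun i => contDiff_conj (c i)
    have hN : ContDiff ℝ ((⊤ : ℕ∞) : WithTop ℕ∞) fun v : Vec => NN v.2 :=
      (((c 0).mul (cc 0)).add ((c 1).mul (cc 1))).add ((c 2).mul (cc 2))
    have hP : ContDiff ℝ ((⊤ : ℕ∞) : WithTop ℕ∞) fun v : Vec => conj (PP v.2) :=
      contDiff_conj (((c 2).pow 2).sub ((c 0).pow 2))
    have hal : ContDiff ℝ ((⊤ : ℕ∞) : WithTop ℕ∞) fun v : Vec => al v.2 := by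
      rw [contDiff_pi]
      intro i
      fin_cases i
      · exact (c 1).neg
      · exact (c 0).sub (c 2)
      · exact c 1
    have hq : ContDiffOn ℝ ((⊤ : ℕ∞) : WithTop ℕ∞) (fun v : Vec => conj (PP v.2) / NN v.2 ^ 2)
        {v | v.1 ≠ 0 ∧ v.2 ≠ 0} := by
      simp only [div_eq_mul_inv]
      exact hP.contDiffOn.mul ((hN.pow 2).contDiffOn.inv fun v hv => pow_ne_zero _ (NN_ne hv.2))
    exact contDiffOn_const.prodMk (hq.smul hal.contDiffOn)
  homogeneous := by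
    intro v _ hx s t _ ht
    have hN := NN_ne hx
    have ht' : conj t ≠ 0 := by simpa using ht
    have e1 : NN (t • v.2) = t * conj t * NN v.2 := by
      simp only [NN, Pi.smul_apply, smul_eq_mul, map_mul]
      ring
    have e2 : PP (t • v.2) = t ^ 2 * PP v.2 := by
      simp only [PP, Pi.smul_apply, smul_eq_mul]
      ring
    have e3 : al (t • v.2) = t • al v.2 := by
      funext i
      fin_cases i
      · simp [al]
      · simp [al]
        ring
      · simp [al]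
    simp only [sg, e1, e2, e3, smul_zero, Prod.mk.injEq, true_and, smul_smul, map_mul, map_pow]
    congr 1
    field_simp
  radial := by
    intro v _ _
    constructor
    · simp [sg]
    · simp [sg, al, Fin.sum_univ_three]
      ring

lemma pair_sg (v w : Vec) : pair (sg v) w =
    conj (PP v.2) / NN v.2 ^ 2 * (-v.2 1 * w.2 0 + (v.2 0 - v.2 2) * w.2 1 + v.2 1 * w.2 2) := by
  simp [pair, sg, al, Fin.sum_univ_three]
  ring

lemma pair_cont : Continuous fun p : Vec × Vec => pair p.1 p.2 := by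
  unfold pair
  fun_prop

lemma pair_limit {η : Vec} {s : ℕ → Vec} {w : ℕ → Vec} {w0 : Vec}
    (h1 : Tendsto s atTop (𝓝 η)) (h2 : Tendsto w atTop (𝓝 w0))
    (h : ∀ n, pair (s n) (w n) = 0) : pair η w0 = 0 := by
  have h3 := (pair_cont.tendsto (η, w0)).comp (h1.prodMk_nhds h2)
  have h4 : Tendsto (fun _ : ℕ => (0 : ℂ)) atTop (𝓝 (pair η w0)) := h3.congr h
  exact tendsto_nhds_unique h4 tendsto_const_nhds

lemma gA_cont : Continuous gA := by
  unfold gA
  fun_prop

lemma tendsto_zero_of_pow {u : ℕ → ℂ} {k : ℕ} (h : Tendsto (fun n => u n ^ k) atTop (𝓝 0)) :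
    Tendsto u atTop (𝓝 0) := by
  rw [Metric.tendsto_nhds] at h ⊢
  intro ε hε
  filter_upwards [h (ε ^ k) (by positivity)] with n hn
  rw [dist_zero_right] at hn ⊢
  rw [norm_pow] at hn
  exact lt_of_pow_lt_pow_left₀ k hε.le hn

lemma tangent_mk {ζ : ℂ} {v : Vec} (hv : v ∈ (ZZ ζ).cone) {ξ : Fin 3 → ℂ}
    (h : dot3 (gA v.2) ξ = 0) : ((0, ξ) : Vec) ∈ (ZZ ζ).tangent v :=
  (mem_tangent_ZZ hv _).2 ⟨rfl, by simp, h⟩

/-- the conormal covectors over the first singular point -/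
lemma lim_p {ζ : ℂ} {v η : Vec} (h : (v, η) ∈ closure (conormalBundle (ZZ ζ)))
    (h0 : v.2 0 = 0) (h1 : v.2 1 = 0) (h2 : v.2 2 ≠ 0) : pair η (0, ![0, 1, 0]) = 0 := by
  obtain ⟨s, hs, hlim⟩ := mem_closure_iff_seq_limit.1 h
  have hr : ∀ n, (s n).1 ∈ (ZZ ζ).cone ∧ (s n).1.2 1 ≠ 0 := fun n => regular_iff.1 (hs n).1
  have l1 : Tendsto (fun n => (s n).1) atTop (𝓝 v) := (continuous_fst.tendsto _).comp hlim
  have l2 : Tendsto (fun n => (s n).2) atTop (𝓝 η) := (continuous_snd.tendsto _).comp hlim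
  have l3 : ∀ i, Tendsto (fun n => (s n).1.2 i) atTop (𝓝 (v.2 i)) := fun i =>
    (((continuous_apply i).comp continuous_snd).tendsto v).comp l1
  set u : ℕ → ℂ := fun n => (s n).1.2 0 / (s n).1.2 1 with hu
  have hux : ∀ n, (s n).1.2 0 = u n * (s n).1.2 1 := fun n => by
    rw [hu]
    exact (div_mul_cancel₀ _ (hr n).2).symm
  have hA : ∀ n, u n ^ 240 * (s n).1.2 2 ^ 16 = -((s n).1.2 1 ^ 16 * (1 + u n ^ 16)) := by
    intro n
    have h3 := (mem_ZZ.1 (hr n).1).2.2.2.2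
    unfold Af at h3
    rw [hux n] at h3
    have h4 : (s n).1.2 1 ^ 240 * (u n ^ 240 * (s n).1.2 2 ^ 16 +
        (s n).1.2 1 ^ 16 * (1 + u n ^ 16)) = 0 := by
      linear_combination h3
    have h5 := (mul_eq_zero.1 h4).resolve_left (pow_ne_zero _ (hr n).2)
    linear_combination h5
  have hA' : ∀ n, u n ^ 240 * (s n).1.2 2 ^ 16 = -((s n).1.2 1 ^ 16 + (s n).1.2 0 ^ 16) := by
    intro n
    rw [hA n, hux n]
    ring
  have hlu : Tendsto u atTop (𝓝 0) := by
    apply tendsto_zero_of_pow (k := 240)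
    have h3 : Tendsto (fun n => -((s n).1.2 1 ^ 16 + (s n).1.2 0 ^ 16) / (s n).1.2 2 ^ 16) atTop
        (𝓝 (-(v.2 1 ^ 16 + v.2 0 ^ 16) / v.2 2 ^ 16)) :=
      ((((l3 1).pow 16).add ((l3 0).pow 16)).neg).div ((l3 2).pow 16) (pow_ne_zero _ h2)
    rw [h0, h1] at h3
    norm_num at h3
    refine h3.congr' ?_
    filter_upwards [(l3 2).eventually_ne h2] with n hn
    rw [div_eq_iff (pow_ne_zero _ hn), hA' n]
    ring
  have hw : ∀ n, pair (s n).2 (0, ![u n * (16 + 15 * u n ^ 16), 15 + 14 * u n ^ 16, 0]) = 0 := by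
    intro n
    refine (hs n).2 _ (tangent_mk (hr n).1 ?_)
    have h3 := hux n
    have h4 := hA n
    simp only [dot3, gA, Matrix.cons_val_zero, Matrix.cons_val_one, Matrix.cons_val]
    rw [h3]
    linear_combination (240 * (s n).1.2 1 ^ 239 * (16 + 15 * u n ^ 16)) * h4
  have hc : Continuous fun u : ℂ =>
      ((0, ![u * (16 + 15 * u ^ 16), 15 + 14 * u ^ 16, 0]) : Vec) := by fun_prop
  have h6 := pair_limit l2 ((hc.tendsto' 0 (0, ![0, 15, 0]) (by norm_num)).comp hlu) hw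
  simp [pair, Fin.sum_univ_three] at h6 ⊢
  exact h6

/-- the conormal covectors over the second singular point -/
lemma lim_q {ζ : ℂ} {v η : Vec} (h : (v, η) ∈ closure (conormalBundle (ZZ ζ)))
    (h0 : v.2 0 ≠ 0) (h1 : v.2 1 = 0) : pair η (0, ![0, 1, 0]) = 0 := by
  obtain ⟨s, hs, hlim⟩ := mem_closure_iff_seq_limit.1 h
  have hr : ∀ n, (s n).1 ∈ (ZZ ζ).cone ∧ (s n).1.2 1 ≠ 0 := fun n => regular_iff.1 (hs n).1
  have l1 : Tendsto (fun n => (s n).1) atTop (𝓝 v) := (continuous_fst.tendsto _).comp hlim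
  have l2 : Tendsto (fun n => (s n).2) atTop (𝓝 η) := (continuous_snd.tendsto _).comp hlim
  have l3 : ∀ i, Tendsto (fun n => (s n).1.2 i) atTop (𝓝 (v.2 i)) := fun i =>
    (((continuous_apply i).comp continuous_snd).tendsto v).comp l1
  set u : ℕ → ℂ := fun n => (s n).1.2 2 / (s n).1.2 1 with hu
  have hux : ∀ n, (s n).1.2 2 = u n * (s n).1.2 1 := fun n => by
    rw [hu]
    exact (div_mul_cancel₀ _ (hr n).2).symm
  have hA : ∀ n, (s n).1.2 0 ^ 240 * u n ^ 16 = -((s n).1.2 1 ^ 224 * ((s n).1.2 1 ^ 16 +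
      (s n).1.2 0 ^ 16)) := by
    intro n
    have h3 := (mem_ZZ.1 (hr n).1).2.2.2.2
    unfold Af at h3
    rw [hux n] at h3
    have h4 : (s n).1.2 1 ^ 16 * ((s n).1.2 0 ^ 240 * u n ^ 16 +
        (s n).1.2 1 ^ 224 * ((s n).1.2 1 ^ 16 + (s n).1.2 0 ^ 16)) = 0 := by
      linear_combination h3
    have h5 := (mul_eq_zero.1 h4).resolve_left (pow_ne_zero _ (hr n).2)
    linear_combination h5
  have hlu : Tendsto u atTop (𝓝 0) := by
    apply tendsto_zero_of_pow (k := 16)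
    have h3 : Tendsto (fun n => -((s n).1.2 1 ^ 224 * ((s n).1.2 1 ^ 16 +
        (s n).1.2 0 ^ 16)) / (s n).1.2 0 ^ 240) atTop
        (𝓝 (-(v.2 1 ^ 224 * (v.2 1 ^ 16 + v.2 0 ^ 16)) / v.2 0 ^ 240)) :=
      ((((l3 1).pow 224).mul (((l3 1).pow 16).add ((l3 0).pow 16))).neg).div ((l3 0).pow 240)
        (pow_ne_zero _ h0)
    rw [h1] at h3
    norm_num at h3
    refine h3.congr' ?_
    filter_upwards [(l3 0).eventually_ne h0] with n hn
    rw [div_eq_iff (pow_ne_zero _ hn)]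
    linear_combination -hA n
  have hw : ∀ n, pair (s n).2 (0, ![0, (s n).1.2 1 ^ 16 + (s n).1.2 0 ^ 16,
      u n * (16 * (s n).1.2 1 ^ 16 + 15 * (s n).1.2 0 ^ 16)]) = 0 := by
    intro n
    refine (hs n).2 _ (tangent_mk (hr n).1 ?_)
    have h3 := hux n
    have h4 := hA n
    simp only [dot3, gA, Matrix.cons_val_zero, Matrix.cons_val_one, Matrix.cons_val]
    rw [h3]
    linear_combination (16 * (s n).1.2 1 ^ 15 *
      (16 * (s n).1.2 1 ^ 16 + 15 * (s n).1.2 0 ^ 16)) * h4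
  have hc : Continuous fun q : ℂ × ℂ × ℂ =>
      ((0, ![0, q.2.1 ^ 16 + q.2.2 ^ 16, q.1 * (16 * q.2.1 ^ 16 + 15 * q.2.2 ^ 16)]) : Vec) := by
    fun_prop
  have h6 := pair_limit l2 ((hc.tendsto' (0, v.2 1, v.2 0) (0, ![0, v.2 0 ^ 16, 0])
    (by rw [h1]; norm_num)).comp (hlu.prodMk_nhds ((l3 1).prodMk_nhds (l3 0)))) hw
  simp [pair, Fin.sum_univ_three, h0] at h6 ⊢
  exact h6

/-- the points of the intersection of the graph of the form and the conormal variety -/
theorem inConormal_iff {γ ζ : ℂ} (hζ : ζ ^ 4 = -1) (v : Vec) :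
    InConormal (XX γ) (ZZ ζ) v (sg v) ↔
      v ∈ (ZZ ζ).cone ∧ v.2 1 ≠ 0 ∧ (PP v.2 = 0 ∨ gA v.2 0 + gA v.2 2 = 0) := by
  constructor
  · rintro ⟨hv, η, hη, hp⟩
    obtain ⟨_, hx, _, _, hA⟩ := mem_ZZ.1 hv
    have hx1 : v.2 1 ≠ 0 := by
      intro h1
      have hg : gA v.2 = 0 := (gA_eq_zero_iff hA).2 h1
      have ht : ((0, ![0, 1, 0]) : Vec) ∈ (ZZ ζ).tangent v := by
        apply tangent_mk hv
        rw [hg]
        simp [dot3]
      have h2 := hp _ (tangent_le hζ v ht)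
      rw [pair_sg] at h2
      have h3 : v.2 0 ^ 240 * v.2 2 ^ 16 = 0 := by
        unfold Af at hA
        rw [h1] at hA
        linear_combination hA
      have hN := NN_ne hx
      by_cases h0 : v.2 0 = 0
      · have h4 : v.2 2 ≠ 0 := by
          intro h4
          apply hx
          funext i
          fin_cases i
          · exact h0
          · exact h1
          · exact h4
        rw [lim_p hη h0 h1 h4] at h2
        simp [PP, h0, h1, h4, hN] at h2
      · have h4 : v.2 2 = 0 := by simpa [h0] using h3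
        rw [lim_q hη h0 h1] at h2
        simp [PP, h0, h1, h4, hN] at h2
    refine ⟨hv, hx1, ?_⟩
    by_cases hP : PP v.2 = 0
    · exact Or.inl hP
    right
    have hcl : IsClosed {p : Vec × Vec | pair p.2 (0, ![gA p.1.2 2, 0, -gA p.1.2 0]) = 0} := by
      have hg := gA_cont
      refine isClosed_eq (pair_cont.comp (continuous_snd.prodMk ?_)) continuous_const
      fun_prop
    have hmem : (v, η) ∈ {p : Vec × Vec | pair p.2 (0, ![gA p.1.2 2, 0, -gA p.1.2 0]) = 0} := by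
      refine closure_minimal ?_ hcl hη
      rintro ⟨v', η'⟩ ⟨hr, hk⟩
      refine hk _ (tangent_mk (regular_iff.1 hr).1 ?_)
      simp [dot3]
      ring
    have ht : ((0, ![gA v.2 2, 0, -gA v.2 0]) : Vec) ∈ (ZZ ζ).tangent v := by
      apply tangent_mk hv
      simp [dot3]
      ring
    have h2 := hp _ (tangent_le hζ v ht)
    have h3 : pair η (0, ![gA v.2 2, 0, -gA v.2 0]) = 0 := hmem
    rw [h3, pair_sg] at h2
    have hP' : conj (PP v.2) ≠ 0 := by simpa using hP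
    have h4 := (mul_eq_zero.1 h2.symm).resolve_left
      (div_ne_zero hP' (pow_ne_zero _ (NN_ne hx)))
    simp at h4
    have h5 : v.2 1 * (gA v.2 0 + gA v.2 2) = 0 := by linear_combination -h4
    exact (mul_eq_zero.1 h5).resolve_left hx1
  · rintro ⟨hv, hx1, h⟩
    obtain ⟨_, hx, _, _, hA⟩ := mem_ZZ.1 hv
    refine ⟨hv, sg v, subset_closure ⟨regular_iff.2 ⟨hv, hx1⟩, fun w hw => ?_⟩, fun _ _ => rfl⟩
    obtain ⟨_, _, h3⟩ := (mem_tangent_ZZ hv w).1 hw
    rw [pair_sg]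
    rcases h with h | h
    · rw [h]
      simp
    · have hg : gA v.2 ≠ 0 := fun hg => hx1 ((gA_eq_zero_iff hA).1 hg)
      have hxg := dot3_gA v.2
      rw [hA] at hxg
      unfold dot3 at h3 hxg
      have key : -v.2 1 * w.2 0 + (v.2 0 - v.2 2) * w.2 1 + v.2 1 * w.2 2 = 0 := by
        by_contra hne
        apply hg
        have k0 : (-v.2 1 * w.2 0 + (v.2 0 - v.2 2) * w.2 1 + v.2 1 * w.2 2) * gA v.2 0 = 0 := by
          linear_combination (v.2 1 * w.2 2 - v.2 2 * w.2 1) * h + w.2 1 * hxg - v.2 1 * h3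
        have k1 : (-v.2 1 * w.2 0 + (v.2 0 - v.2 2) * w.2 1 + v.2 1 * w.2 2) * gA v.2 1 = 0 := by
          linear_combination (v.2 2 * w.2 0 - v.2 0 * w.2 2) * h + (w.2 2 - w.2 0) * hxg +
            (v.2 0 - v.2 2) * h3
        have k2 : (-v.2 1 * w.2 0 + (v.2 0 - v.2 2) * w.2 1 + v.2 1 * w.2 2) * gA v.2 2 = 0 := by
          linear_combination (v.2 0 * w.2 1 - v.2 1 * w.2 0) * h - w.2 1 * hxg + v.2 1 * h3
        funext i
        fin_cases i
        · exact (mul_eq_zero.1 k0).resolve_left hne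
        · exact (mul_eq_zero.1 k1).resolve_left hne
        · exact (mul_eq_zero.1 k2).resolve_left hne
      rw [key, mul_zero]

end Pool.Agent.N154.CN
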