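import Pool.Agent.N154.CN.Surf

/-! Differentials of the equations. -/

set_option autoImplicit false

open MvPolynomial

namespace Pool.Agent.N154.CN

open Pool.Agent.TH144.CN (B Y Ep Ap Gp Fp Af Gf)

/-- the gradient of `A` -/
def gA (x : Fin 3 → ℂ) : Fin 3 → ℂ :=
  ![240 * x 0 ^ 239 * x 2 ^ 16 + 16 * x 0 ^ 15 * x 1 ^ 240,
    256 * x 1 ^ 255 + 240 * x 0 ^ 16 * x 1 ^ 239, 16 * x 0 ^ 240 * x 2 ^ 15]

/-- the gradient of `G` -/
def gG (γ : ℂ) (x : Fin 3 → ℂ) : Fin 3 → ℂ :=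
  ![256 * x 0 ^ 255, 256 * x 1 ^ 255, 256 * γ * x 2 ^ 255]

lemma dval_Ep (v w : Vec) :
    dval Ep v w = 4 * (v.1 0 ^ 3 * w.1 0 + v.1 1 ^ 3 * w.1 1 + v.1 2 ^ 3 * w.1 2) := by
  simp only [dval, val, Ep, B, map_add, Fin.sum_univ_three, Derivation.leibniz_pow, pderiv_X]
  simp
  ring

lemma dval_Ap (v w : Vec) :
    dval Ap v w = gA v.2 0 * w.2 0 + gA v.2 1 * w.2 1 + gA v.2 2 * w.2 2 := by
  simp only [dval, val, Ap, Y, map_add, Fin.sum_univ_three, Derivation.leibniz,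
    Derivation.leibniz_pow, pderiv_X]
  simp [gA]
  ring

lemma dval_Gp (γ : ℂ) (v w : Vec) :
    dval (Gp γ) v w = gG γ v.2 0 * w.2 0 + gG γ v.2 1 * w.2 1 + gG γ v.2 2 * w.2 2 := by
  simp only [dval, val, Gp, Y, map_add, Fin.sum_univ_three, Derivation.leibniz,
    Derivation.leibniz_pow, pderiv_X]
  simp [gG]
  ring

lemma dval_mul (P Q : BiPoly) (v w : Vec) :
    dval (P * Q) v w = val P v * dval Q v w + val Q v * dval P v w := by
  simp only [dval, val, Derivation.leibniz, map_add, smul_eq_mul, map_mul, mul_add,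
    Finset.sum_add_distrib, Finset.mul_sum]
  have h1 : ∀ i : Fin 3, w.1 i * (eval (Sum.elim v.1 v.2) P *
      eval (Sum.elim v.1 v.2) (pderiv (Sum.inl i) Q)) = eval (Sum.elim v.1 v.2) P *
      (w.1 i * eval (Sum.elim v.1 v.2) (pderiv (Sum.inl i) Q)) := fun i => by ring
  have h2 : ∀ i : Fin 3, w.1 i * (eval (Sum.elim v.1 v.2) Q *
      eval (Sum.elim v.1 v.2) (pderiv (Sum.inl i) P)) = eval (Sum.elim v.1 v.2) Q *
      (w.1 i * eval (Sum.elim v.1 v.2) (pderiv (Sum.inl i) P)) := fun i => by ring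
  have h3 : ∀ i : Fin 3, w.2 i * (eval (Sum.elim v.1 v.2) P *
      eval (Sum.elim v.1 v.2) (pderiv (Sum.inr i) Q)) = eval (Sum.elim v.1 v.2) P *
      (w.2 i * eval (Sum.elim v.1 v.2) (pderiv (Sum.inr i) Q)) := fun i => by ring
  have h4 : ∀ i : Fin 3, w.2 i * (eval (Sum.elim v.1 v.2) Q *
      eval (Sum.elim v.1 v.2) (pderiv (Sum.inr i) P)) = eval (Sum.elim v.1 v.2) Q *
      (w.2 i * eval (Sum.elim v.1 v.2) (pderiv (Sum.inr i) P)) := fun i => by ring
  simp only [h1, h2, h3, h4]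
  ring

lemma dval_addP (P Q : BiPoly) (v w : Vec) : dval (P + Q) v w = dval P v w + dval Q v w := by
  simp only [dval, val, map_add, mul_add, Finset.sum_add_distrib]
  ring

lemma dval_B (i : Fin 3) (v w : Vec) : dval (B i) v w = w.1 i := by
  simp only [dval, val, B, pderiv_X]
  fin_cases i <;> simp [Fin.sum_univ_three]

lemma dval_C (c : ℂ) (v w : Vec) : dval (C c) v w = 0 := by
  simp [dval, val]

lemma val_B (i : Fin 3) (v : Vec) : val (B i) v = v.1 i := by simp [val, B]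

lemma dval_Fp (γ : ℂ) (v w : Vec) :
    dval (Fp γ) v w = w.1 0 * Af v.2 + 2 * w.1 1 * Gf γ v.2 +
      (v.1 0 * dval Ap v w + 2 * v.1 1 * dval (Gp γ) v w) := by
  unfold Fp
  rw [dval_addP, dval_mul, dval_mul, dval_mul, dval_B, dval_B, dval_C, val_B, val_Ap, val_Gp]
  simp only [val, B, map_mul, eval_C, eval_X, Sum.elim_inl]
  ring

end Pool.Agent.N154.CN
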