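import Pool.Agent.N154.CN.Conn1

/-! The form `A` is irreducible. -/

set_option autoImplicit false

open MvPolynomial

namespace Pool.Agent.N154.CN

open Pool.Agent.TH144.CN (Af)

/-- the polynomial `A` -/
noncomputable def A3 : MvPolynomial (Fin 3) ℂ := X 0 ^ 240 * X 2 ^ 16 + X 1 ^ 256 + X 0 ^ 16 * X 1 ^ 240

lemma eval_A3 (x : Fin 3 → ℂ) : eval x A3 = Af x := by
  simp [A3, Af]

/-- the polynomial `A` as a polynomial in the last variable -/
noncomputable def AP : Polynomial (MvPolynomial (Fin 2) ℂ) :=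
  Polynomial.C (X 1 ^ 240) * Polynomial.X ^ 16 + Polynomial.C (X 0 ^ 256 + X 1 ^ 16 * X 0 ^ 240)

lemma AP_degree : AP.degree = 16 := by
  have h : (X 1 ^ 240 : MvPolynomial (Fin 2) ℂ) ≠ 0 := pow_ne_zero _ (X_ne_zero 1)
  unfold AP
  rw [Polynomial.degree_add_C (by rw [Polynomial.degree_C_mul_X_pow _ h]; norm_num)]
  exact Polynomial.degree_C_mul_X_pow _ h

lemma AP_coeff_zero : AP.coeff 0 = X 0 ^ 256 + X 1 ^ 16 * X 0 ^ 240 := by
  unfold AP
  rw [Polynomial.coeff_add, Polynomial.coeff_C_mul_X_pow, Polynomial.coeff_C]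
  simp

lemma AP_coeff_top : AP.coeff 16 = X 1 ^ 240 := by
  unfold AP
  rw [Polynomial.coeff_add, Polynomial.coeff_C_mul_X_pow, Polynomial.coeff_C]
  simp

lemma AP_coeff_mid {n : ℕ} (h0 : n ≠ 0) (h1 : n ≠ 16) : AP.coeff n = 0 := by
  unfold AP
  rw [Polynomial.coeff_add, Polynomial.coeff_C_mul_X_pow, Polynomial.coeff_C]
  simp [h0, h1]

lemma AP_irreducible : Irreducible AP := by
  obtain ⟨ω, hω⟩ := IsAlgClosed.exists_pow_nat_eq (-1 : ℂ) (n := 16) (by norm_num)
  have hω0 : ω ≠ 0 := by
    rintro rfl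
    norm_num at hω
  set ψ : MvPolynomial (Fin 2) ℂ →+* Polynomial ℂ :=
    eval₂Hom Polynomial.C ![Polynomial.C ω * Polynomial.X, Polynomial.X] with hψ
  have p0 : ψ (X 0) = Polynomial.C ω * Polynomial.X := by simp [hψ]
  have p1 : ψ (X 1) = Polynomial.X := by simp [hψ]
  have h256 : ω ^ 256 = 1 := by
    have : ω ^ 256 = (ω ^ 16) ^ 16 := by ring
    rw [this, hω]
    norm_num
  have h240 : ω ^ 240 = -1 := by
    have : ω ^ 240 = (ω ^ 16) ^ 15 := by ring
    rw [this, hω]
    norm_num
  have h255 : ω ^ 255 = -ω ^ 239 := by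
    have : ω ^ 255 = ω ^ 16 * ω ^ 239 := by ring
    rw [this, hω]
    ring
  apply Polynomial.irreducible_of_eisenstein_criterion (P := RingHom.ker ψ)
    (RingHom.ker_isPrime ψ)
  · have h : AP.natDegree = 16 := Polynomial.natDegree_eq_of_degree_eq_some AP_degree
    rw [Polynomial.leadingCoeff, h, AP_coeff_top, RingHom.mem_ker, map_pow, p1]
    exact pow_ne_zero _ Polynomial.X_ne_zero
  · intro n hn
    rw [AP_degree] at hn
    have hn' : n < 16 := by exact_mod_cast hn
    by_cases h0 : n = 0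
    · rw [h0, AP_coeff_zero, RingHom.mem_ker, map_add, map_mul, map_pow, map_pow, map_pow, p0, p1,
        mul_pow, mul_pow, ← Polynomial.C_pow, ← Polynomial.C_pow, h256, h240]
      simp
      ring
    · rw [AP_coeff_mid h0 (by omega)]
      exact zero_mem _
  · rw [AP_degree]
    norm_num
  · intro hmem
    have key : ∀ f ∈ (RingHom.ker ψ) ^ 2, ψ (pderiv 0 f) = 0 := by
      intro f hf
      rw [pow_two] at hf
      refine Submodule.mul_induction_on hf ?_ ?_
      · intro a ha b hb
        rw [RingHom.mem_ker] at ha hb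
        rw [Derivation.leibniz, map_add, smul_eq_mul, smul_eq_mul, map_mul, map_mul, ha, hb,
          zero_mul, zero_mul, add_zero]
      · intro a b ha hb
        rw [map_add, map_add, ha, hb, add_zero]
    have h := key _ hmem
    rw [AP_coeff_zero] at h
    have e : pderiv 0 (X 0 ^ 256 + X 1 ^ 16 * X 0 ^ 240 : MvPolynomial (Fin 2) ℂ) =
        256 * X 0 ^ 255 + 240 * (X 1 ^ 16 * X 0 ^ 239) := by
      rw [map_add, Derivation.leibniz, Derivation.leibniz_pow, Derivation.leibniz_pow,
        Derivation.leibniz_pow, pderiv_X_self, pderiv_X_of_ne (by decide)]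
      simp
      ring
    rw [e] at h
    have h2 := congrArg (Polynomial.eval 1) h
    simp [hψ] at h2
    rw [h255] at h2
    have h3 : ω ^ 239 = 0 := by linear_combination (-1 / 16) * h2
    exact hω0 (by simpa using h3)
  · rw [Polynomial.isPrimitive_iff_isUnit_of_C_dvd]
    intro r hr
    rw [Polynomial.C_dvd_iff_dvd_coeff] at hr
    have h0 := hr 0
    have h1 := hr 16
    rw [AP_coeff_zero] at h0
    rw [AP_coeff_top] at h1
    have hp : Prime (X 1 : MvPolynomial (Fin 2) ℂ) := MvPolynomial.X_prime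
    obtain ⟨k, hk, hass⟩ := (dvd_prime_pow hp 240).1 h1
    have hk0 : k = 0 := by
      by_contra hk0
      have h2 : (X 1 : MvPolynomial (Fin 2) ℂ) ∣ r :=
        (dvd_pow_self _ hk0).trans hass.symm.dvd
      obtain ⟨q, hq⟩ := h2.trans h0
      have h3 := congrArg (eval ![1, 0]) hq
      simp at h3
    rw [hk0, pow_zero] at hass
    exact hass.isUnit_iff.2 isUnit_one

/-- the form `A` is a prime element -/
lemma A3_prime : Prime A3 := by
  rw [← UniqueFactorizationMonoid.irreducible_iff_prime]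
  let e : MvPolynomial (Fin 3) ℂ ≃ₐ[ℂ] Polynomial (MvPolynomial (Fin 2) ℂ) :=
    (renameEquiv ℂ (Equiv.swap (0 : Fin 3) 2)).trans (finSuccEquiv ℂ 2)
  have he : e A3 = AP := by
    have s0 : (Equiv.swap (0 : Fin 3) 2) 0 = Fin.succ 1 := by decide
    have s1 : (Equiv.swap (0 : Fin 3) 2) 1 = Fin.succ 0 := by decide
    have s2 : (Equiv.swap (0 : Fin 3) 2) 2 = 0 := by decide
    have e0 : e (X 0) = Polynomial.C (X 1) := by
      simp only [e, AlgEquiv.trans_apply, renameEquiv_apply, rename_X]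
      rw [s0, finSuccEquiv_X_succ]
    have e1 : e (X 1) = Polynomial.C (X 0) := by
      simp only [e, AlgEquiv.trans_apply, renameEquiv_apply, rename_X]
      rw [s1, finSuccEquiv_X_succ]
    have e2 : e (X 2) = Polynomial.X := by
      simp only [e, AlgEquiv.trans_apply, renameEquiv_apply, rename_X]
      rw [s2, finSuccEquiv_X_zero]
    unfold A3 AP
    rw [map_add, map_add, map_mul, map_mul, map_pow, map_pow, map_pow, map_pow, map_pow, e0, e1, e2]
    simp only [Polynomial.C_add, Polynomial.C_mul, Polynomial.C_pow]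
    ring
  rw [← MulEquiv.irreducible_iff e.toMulEquiv]
  change Irreducible (e A3)
  rw [he]
  exact AP_irreducible

/-- a polynomial that vanishes on the curve `A = 0` is divisible by `A` -/
lemma dvd_of_vanish {g : MvPolynomial (Fin 3) ℂ} (h : ∀ x : Fin 3 → ℂ, x ≠ 0 → Af x = 0 →
    eval x g = 0) : A3 ∣ g := by
  have h1 : g * X 0 ∈ vanishingIdeal ℂ (zeroLocus ℂ (Ideal.span {A3})) := by
    rw [mem_vanishingIdeal_iff]
    intro x hx
    have hA : Af x = 0 := by
      have := hx A3 (Ideal.subset_span rfl)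
      rwa [aeval_eq_eval, eval_A3] at this
    by_cases hx0 : x = 0
    · subst hx0
      simp
    · simp [h x hx0 hA]
  rw [vanishingIdeal_zeroLocus_eq_radical] at h1
  have h2 : (Ideal.span {A3}).IsPrime := (Ideal.span_singleton_prime A3_prime.ne_zero).2 A3_prime
  rw [h2.radical, Ideal.mem_span_singleton] at h1
  rcases A3_prime.dvd_or_dvd h1 with h3 | ⟨q, hq⟩
  · exact h3
  · exfalso
    have := congrArg (eval ![1, 0, 0]) hq
    simp [A3] at this

end Pool.Agent.N154.CN
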