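import Pool.Agent.N154.CN.Chart

/-! The local intersection numbers. -/

set_option autoImplicit false

open Filter Topology Metric Set
open scoped ComplexConjugate

namespace Pool.Agent.N154.CN

open Pool.Agent.TH144.CN (B Y Ep Ap Gp Fp Af Gf Af_cont)

lemma alg1 {y z c : ℂ} (hy : y ≠ 0) (hA : z ^ 16 + y ^ 256 + y ^ 240 = 0)
    (hd : 16 * z ^ 15 * c + (256 * y ^ 255 + 240 * y ^ 239) = 0) :
    y * (y ^ 16 + 1) * c = (16 * y ^ 16 + 15) * z := by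
  have h : y ^ 239 * (y * (y ^ 16 + 1) * c - (16 * y ^ 16 + 15) * z) = 0 := by
    linear_combination (-z / 16) * hd + c * hA
  have h2 := (mul_eq_zero.1 h).resolve_left (pow_ne_zero _ hy)
  linear_combination h2

lemma alg2 {y z : ℂ} (hz : z ≠ 0) (hA : z ^ 16 + y ^ 256 + y ^ 240 = 0) : y ^ 16 + 1 ≠ 0 := by
  intro h
  have h2 : z ^ 16 = 0 := by linear_combination hA - y ^ 240 * h
  exact hz (by simpa using h2)

lemma hasDerivAt_pow_add (y0 s : ℂ) (n : ℕ) :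
    HasDerivAt (fun s : ℂ => (y0 + s) ^ n) (n * (y0 + s) ^ (n - 1)) s := by
  have h := ((hasDerivAt_id s).const_add y0).pow n
  exact h.congr_deriv (by simp)

lemma Branch.deriv_eq {y0 z0 : ℂ} {ψ : ℂ → ℂ} (h : Branch y0 z0 ψ) :
    ∀ᶠ s in 𝓝 (0 : ℂ), 16 * ψ s ^ 15 * deriv ψ s +
      (256 * (y0 + s) ^ 255 + 240 * (y0 + s) ^ 239) = 0 := by
  filter_upwards [h.diff] with s hs
  have h1 := ((hs.hasDerivAt.pow 16).add (hasDerivAt_pow_add y0 s 256)).add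
    (hasDerivAt_pow_add y0 s 240)
  have h2 : (((ψ ^ 16) + fun s => (y0 + s) ^ 256) + fun s => (y0 + s) ^ 240) = fun _ => (0 : ℂ) := by
    funext s
    exact h.eq s
  rw [h2] at h1
  have h3 := h1.unique (hasDerivAt_const s (0 : ℂ))
  push_cast at h3
  generalize (y0 + s) ^ 255 = a at h3 ⊢
  generalize (y0 + s) ^ 239 = b at h3 ⊢
  linear_combination h3

/-- the coefficient of the holomorphic form -/
noncomputable def hf (y0 : ℂ) (ψ : ℂ → ℂ) (s : ℂ) : ℂ := 1 - ψ s + (y0 + s) * deriv ψ s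

/-- a formula for it -/
noncomputable def HF (y0 : ℂ) (ψ : ℂ → ℂ) (s : ℂ) : ℂ :=
  1 + ψ s * (15 * (y0 + s) ^ 16 + 14) / ((y0 + s) ^ 16 + 1)

lemma Branch.cont {y0 z0 : ℂ} {ψ : ℂ → ℂ} (h : Branch y0 z0 ψ) : ContinuousAt ψ 0 :=
  h.diff.self_of_nhds.continuousAt

lemma Branch.hf_eq {y0 z0 : ℂ} {ψ : ℂ → ℂ} (h : Branch y0 z0 ψ) :
    hf y0 ψ =ᶠ[𝓝 0] HF y0 ψ := by
  have e1 : ∀ᶠ s in 𝓝 (0 : ℂ), ψ s ≠ 0 := h.cont.eventually_ne (by rw [h.base]; exact h.hz)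
  have e2 : ∀ᶠ s in 𝓝 (0 : ℂ), y0 + s ≠ 0 := by
    have hc : Continuous fun s : ℂ => y0 + s := by fun_prop
    exact hc.continuousAt.eventually_ne (by rw [add_zero]; exact h.hy)
  filter_upwards [e1, e2, h.deriv_eq] with s h1 h2 h3
  unfold hf HF
  have h4 := h.eq s
  generalize y0 + s = y at *
  generalize ψ s = z at *
  generalize deriv ψ s = c at *
  have h5 := alg1 h2 h4 h3
  have h6 := alg2 h1 h4
  field_simp
  linear_combination h5

/-- the derivative of the coefficient at the origin -/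
noncomputable def HD (y0 z0 c : ℂ) : ℂ :=
  c * (15 * y0 ^ 16 + 14) / (y0 ^ 16 + 1) + z0 * (16 * y0 ^ 15) / (y0 ^ 16 + 1) ^ 2

lemma Branch.hf_deriv {y0 z0 : ℂ} {ψ : ℂ → ℂ} (h : Branch y0 z0 ψ) :
    HasDerivAt (hf y0 ψ) (HD y0 z0 (deriv ψ 0)) 0 := by
  have hA : z0 ^ 16 + y0 ^ 256 + y0 ^ 240 = 0 := by
    have := h.eq 0
    rwa [h.base, add_zero] at this
  have hY := alg2 h.hz hA
  refine HasDerivAt.congr_of_eventuallyEq ?_ h.hf_eq
  have h1 := h.diff.self_of_nhds.hasDerivAt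
  have h2 := hasDerivAt_pow_add y0 0 16
  norm_num at h2
  have h3 := ((h1.mul ((h2.const_mul 15).add_const 14)).div (h2.add_const 1)
    (by simpa using hY)).const_add 1
  refine (h3.congr_deriv ?_)
  simp only [add_zero, Pi.mul_apply, h.base, HD]
  field_simp
  ring

lemma HD_eq {y0 z0 c : ℂ} (hy : y0 ≠ 0) (hz : z0 ≠ 0) (hA : z0 ^ 16 + y0 ^ 256 + y0 ^ 240 = 0)
    (hd : 16 * z0 ^ 15 * c + (256 * y0 ^ 255 + 240 * y0 ^ 239) = 0) :
    y0 * (y0 ^ 16 + 1) ^ 2 * HD y0 z0 c =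
      15 * z0 * (16 * (y0 ^ 16) ^ 2 + 31 * y0 ^ 16 + 14) := by
  have h5 := alg1 hy hA hd
  have h6 := alg2 hz hA
  unfold HD
  have h7 : y0 * (y0 ^ 16 + 1) ^ 2 * (c * (15 * y0 ^ 16 + 14) / (y0 ^ 16 + 1) +
      z0 * (16 * y0 ^ 15) / (y0 ^ 16 + 1) ^ 2) =
      y0 * (y0 ^ 16 + 1) * c * (15 * y0 ^ 16 + 14) + z0 * (16 * y0 ^ 16) := by
    field_simp
  rw [h7, h5]
  ring

/-- the coefficient of the smooth form -/
noncomputable def kk (y0 : ℂ) (ψ : ℂ → ℂ) (s : ℂ) : ℂ :=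
  conj (ψ s ^ 2 - 1) / NN ![1, y0 + s, ψ s] ^ 2 * hf y0 ψ s

lemma Branch.coef_eq {y0 z0 : ℂ} {ψ : ℂ → ℂ} (h : Branch y0 z0 ψ) (ζ : ℂ) :
    coef sg (phi ζ y0 ψ) =ᶠ[𝓝 0] fun t _ => kk y0 ψ (t 0) := by
  have ht : Tendsto (fun t : Fin 1 → ℂ => t 0) (𝓝 0) (𝓝 0) := by
    have := (continuous_apply (0 : Fin 1)).tendsto (0 : Fin 1 → ℂ)
    exact this
  filter_upwards [ht h.diff] with t ht'
  have h1 : HasDerivAt ψ (deriv ψ (t 0)) (t 0) := DifferentiableAt.hasDerivAt ht'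
  funext i
  unfold coef
  rw [(hasFDerivAt_phi (y0 := y0) (ζ := ζ) h1).fderiv, dphi_apply, pair_sg]
  fin_cases i
  simp [phi, kk, hf, PP]

lemma Branch.sign {y0 z0 : ℂ} {ψ : ℂ → ℂ} (h : Branch y0 z0 ψ) (ζ : ℂ) {M : ℂ →L[ℝ] ℂ} {ε : ℤ}
    (hk : kk y0 ψ 0 = 0) (hM : HasFDerivAt (kk y0 ψ) M 0)
    (hdet : (0 < LinearMap.det (M : ℂ →ₗ[ℝ] ℂ) ∧ ε = 1) ∨
      (LinearMap.det (M : ℂ →ₗ[ℝ] ℂ) < 0 ∧ ε = -1)) :
    LocalSign (ZZ ζ) sg (bs ζ, ![1, y0, z0]) ε := by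
  refine ⟨1, phi ζ y0 ψ, lift1 M, h.chart ζ, ?_, ?_, ?_⟩
  · rw [(h.coef_eq ζ).self_of_nhds]
    funext i
    exact hk
  · refine HasFDerivAt.congr_of_eventuallyEq ?_ (h.coef_eq ζ)
    refine hasFDerivAt_pi.2 fun _ => ?_
    have hp : HasFDerivAt (fun t : Fin 1 → ℂ => t 0)
        (ContinuousLinearMap.proj 0 : (Fin 1 → ℂ) →L[ℝ] ℂ) 0 :=
      (ContinuousLinearMap.proj 0 : (Fin 1 → ℂ) →L[ℝ] ℂ).hasFDerivAt
    exact HasFDerivAt.comp (0 : Fin 1 → ℂ) (g := kk y0 ψ) hM hp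
  · rw [det_lift1]
    exact hdet

lemma ne_vec (a b : ℂ) : (![1, a, b] : Fin 3 → ℂ) ≠ 0 := by
  intro h
  have := congrFun h 0
  simp at this

lemma hasFDerivAt_of_deriv {f : ℂ → ℂ} {a : ℂ} (h : HasDerivAt f a 0) :
    HasFDerivAt f (mulC a) 0 := by
  have h1 := h.hasFDerivAt.restrictScalars ℝ
  refine h1.congr_fderiv ?_
  ext
  simp [mulC]
  ring

theorem Branch.plus {y0 z0 : ℂ} {ψ : ℂ → ℂ} (h : Branch y0 z0 ψ) (ζ : ℂ) (hP : z0 ^ 2 ≠ 1)
    (h0 : (y0 ^ 16 + 1) + z0 * (15 * y0 ^ 16 + 14) = 0)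
    (hq : 16 * (y0 ^ 16) ^ 2 + 31 * y0 ^ 16 + 14 ≠ 0) :
    LocalSign (ZZ ζ) sg (bs ζ, ![1, y0, z0]) 1 := by
  have hA : z0 ^ 16 + y0 ^ 256 + y0 ^ 240 = 0 := by
    have := h.eq 0
    rwa [h.base, add_zero] at this
  have hd := h.deriv_eq.self_of_nhds
  rw [h.base, add_zero] at hd
  have hY := alg2 h.hz hA
  have hH := HD_eq h.hy h.hz hA hd
  have hHD : HD y0 z0 (deriv ψ 0) ≠ 0 := by
    intro h1
    rw [h1, mul_zero] at hH
    exact mul_ne_zero (mul_ne_zero (by norm_num) h.hz) hq hH.symm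
  have hu0 : hf y0 ψ 0 = 0 := by
    rw [h.hf_eq.self_of_nhds]
    unfold HF
    rw [h.base, add_zero]
    field_simp
    linear_combination h0
  have hc : ContinuousAt (fun s => conj (ψ s ^ 2 - 1) / NN ![1, y0 + s, ψ s] ^ 2) 0 := by
    have h1 := h.cont
    have h2 : NN ![1, y0 + 0, ψ 0] ^ 2 ≠ 0 := pow_ne_zero _ (NN_ne (ne_vec _ _))
    refine ContinuousAt.div ?_ ?_ h2
    · exact Complex.continuous_conj.continuousAt.comp ((h1.pow 2).sub continuousAt_const)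
    · have h3 : ContinuousAt (fun s : ℂ => y0 + s) 0 := by fun_prop
      have h4 : ContinuousAt (fun s => conj (y0 + s)) 0 :=
        Complex.continuous_conj.continuousAt.comp h3
      have h5 : ContinuousAt (fun s => conj (ψ s)) 0 :=
        Complex.continuous_conj.continuousAt.comp h1
      unfold NN
      simp only [Matrix.cons_val_zero, Matrix.cons_val_one, Matrix.cons_val]
      exact ((continuousAt_const.add (h3.mul h4)).add (h1.mul h5)).pow 2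
  have hfd := hasFDerivAt_mul_zero (hasFDerivAt_of_deriv h.hf_deriv) hu0 hc
  refine h.sign ζ (M := mulC ((conj (ψ 0 ^ 2 - 1) / NN ![1, y0 + 0, ψ 0] ^ 2) *
    HD y0 z0 (deriv ψ 0))) ?_ ?_ (Or.inl ⟨?_, rfl⟩)
  · unfold kk
    rw [hu0, mul_zero]
  · refine hfd.congr_fderiv ?_
    ext
    simp [mulC]
    ring
  · rw [det_mulC, Complex.normSq_pos]
    refine mul_ne_zero (div_ne_zero ?_ (pow_ne_zero _ (NN_ne (ne_vec _ _)))) hHD
    rw [h.base]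
    intro h1
    rw [map_eq_zero] at h1
    exact hP (by linear_combination h1)

theorem Branch.minus {y0 z0 : ℂ} {ψ : ℂ → ℂ} (h : Branch y0 z0 ψ) (ζ : ℂ) (hP : z0 ^ 2 = 1)
    (h0 : (y0 ^ 16 + 1) + z0 * (15 * y0 ^ 16 + 14) ≠ 0)
    (h15 : 16 * y0 ^ 16 + 15 ≠ 0) :
    LocalSign (ZZ ζ) sg (bs ζ, ![1, y0, z0]) (-1) := by
  have hA : z0 ^ 16 + y0 ^ 256 + y0 ^ 240 = 0 := by
    have := h.eq 0
    rwa [h.base, add_zero] at this
  have hd := h.deriv_eq.self_of_nhds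
  rw [h.base, add_zero] at hd
  have hY := alg2 h.hz hA
  have hcne : deriv ψ 0 ≠ 0 := by
    intro h1
    have h2 := alg1 h.hy hA hd
    rw [h1, mul_zero] at h2
    exact mul_ne_zero h15 h.hz h2.symm
  have hf0 : hf y0 ψ 0 ≠ 0 := by
    rw [h.hf_eq.self_of_nhds]
    unfold HF
    rw [h.base, add_zero]
    intro h1
    apply h0
    field_simp at h1
    linear_combination h1
  have hu : HasDerivAt (fun s => ψ s ^ 2 - 1) (2 * z0 * deriv ψ 0) 0 := by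
    have h1 := (h.diff.self_of_nhds.hasDerivAt.pow 2).sub_const 1
    refine h1.congr_deriv ?_
    rw [h.base]
    norm_num
  have hu2 : HasFDerivAt (fun s => conj (ψ s ^ 2 - 1)) (mulConj (conj (2 * z0 * deriv ψ 0))) 0 := by
    have h1 := (Complex.conjCLE : ℂ →L[ℝ] ℂ).hasFDerivAt.comp (0 : ℂ) (hasFDerivAt_of_deriv hu)
    refine h1.congr_fderiv ?_
    ext
    simp [mulConj, mulC]
  have hc : ContinuousAt (fun s => hf y0 ψ s / NN ![1, y0 + s, ψ s] ^ 2) 0 := by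
    have h1 := h.cont
    have h2 : NN ![1, y0 + 0, ψ 0] ^ 2 ≠ 0 := pow_ne_zero _ (NN_ne (ne_vec _ _))
    refine ContinuousAt.div h.hf_deriv.continuousAt ?_ h2
    have h3 : ContinuousAt (fun s : ℂ => y0 + s) 0 := by fun_prop
    have h4 : ContinuousAt (fun s => conj (y0 + s)) 0 :=
      Complex.continuous_conj.continuousAt.comp h3
    have h5 : ContinuousAt (fun s => conj (ψ s)) 0 :=
      Complex.continuous_conj.continuousAt.comp h1
    unfold NN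
    simp only [Matrix.cons_val_zero, Matrix.cons_val_one, Matrix.cons_val]
    exact ((continuousAt_const.add (h3.mul h4)).add (h1.mul h5)).pow 2
  have hu0 : conj (ψ 0 ^ 2 - 1) = 0 := by
    rw [h.base, hP, sub_self, map_zero]
  have hfd := hasFDerivAt_mul_zero hu2 hu0 hc
  have hkk : kk y0 ψ = fun s => (hf y0 ψ s / NN ![1, y0 + s, ψ s] ^ 2) * conj (ψ s ^ 2 - 1) := by
    funext s
    unfold kk
    ring
  refine h.sign ζ (M := mulConj ((hf y0 ψ 0 / NN ![1, y0 + 0, ψ 0] ^ 2) *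
    conj (2 * z0 * deriv ψ 0))) ?_ ?_ (Or.inr ⟨?_, rfl⟩)
  · rw [hkk]
    simp only
    rw [hu0, mul_zero]
  · rw [hkk]
    refine hfd.congr_fderiv ?_
    ext
    simp [mulConj]
    ring
  · rw [det_mulConj, neg_lt_zero, Complex.normSq_pos]
    refine mul_ne_zero (div_ne_zero hf0 (pow_ne_zero _ (NN_ne (ne_vec _ _)))) ?_
    intro h1
    rw [map_eq_zero] at h1
    exact mul_ne_zero (mul_ne_zero (by norm_num) h.hz) hcne h1

end Pool.Agent.N154.CN
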