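import Pool.Agent.N154.CN.Grad

/-! Smoothness of the surface for a suitable parameter. -/

set_option autoImplicit false

open MvPolynomial

namespace Pool.Agent.N154.CN

open Pool.Agent.TH144.CN (B Y Ep Ap Gp Fp Af Gf)

/-- the conditions for the parameter -/
structure Good (γ : ℂ) : Prop where
  ne : γ ≠ 0
  h1 : γ * 16 ^ 20 ≠ 15 ^ 15
  h2 : ∀ c w : ℂ, c ^ 4 = -16 → 1 + c ≠ 0 → 15 * w + (-15 / (16 * (1 + c))) ^ 15 + 16 * c = 0 →
    w ≠ 0 → 1 + 16 * c * γ * w ^ 15 ≠ 0
  h3 : ∀ Y w : ℂ, 15 * Y ^ 17 + 14 * Y ^ 16 + 16 * Y + 15 = 0 → w = -(Y ^ 16 + Y ^ 15) → w ≠ 0 →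
    1 + Y ^ 16 + γ * w ^ 16 ≠ 0

theorem exists_good : ∃ γ : ℂ, Good γ := by
  classical
  have f2 : Set.Finite {c : ℂ | c ^ 4 = -16} := by
    have h : (Polynomial.X ^ 4 + Polynomial.C 16 : Polynomial ℂ) ≠ 0 :=
      (Polynomial.monic_X_pow_add_C (16 : ℂ) (by norm_num)).ne_zero
    refine (Polynomial.finite_setOfPred_isRoot h).subset fun c hc => ?_
    have hc' : c ^ 4 = -16 := hc
    simp [Polynomial.IsRoot, hc']
  have f3 : Set.Finite {Y : ℂ | 15 * Y ^ 17 + 14 * Y ^ 16 + 16 * Y + 15 = 0} := by
    have h : (Polynomial.C 15 * Polynomial.X ^ 17 + Polynomial.C 14 * Polynomial.X ^ 16 +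
        Polynomial.C 16 * Polynomial.X + Polynomial.C 15 : Polynomial ℂ) ≠ 0 := by
      intro h0
      have := congrArg (Polynomial.eval 0) h0
      simp at this
    refine (Polynomial.finite_setOfPred_isRoot h).subset fun c hc => ?_
    have hc' : 15 * c ^ 17 + 14 * c ^ 16 + 16 * c + 15 = 0 := hc
    simp [Polynomial.IsRoot, hc']
  let w2 : ℂ → ℂ := fun c => -((-15 / (16 * (1 + c))) ^ 15 + 16 * c) / 15
  let w3 : ℂ → ℂ := fun Y => -(Y ^ 16 + Y ^ 15)
  let S : Set ℂ := {0} ∪ {15 ^ 15 / 16 ^ 20} ∪
    ((fun c => -1 / (16 * c * w2 c ^ 15)) '' {c : ℂ | c ^ 4 = -16}) ∪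
    ((fun Y => -(1 + Y ^ 16) / w3 Y ^ 16) '' {Y : ℂ | 15 * Y ^ 17 + 14 * Y ^ 16 + 16 * Y + 15 = 0})
  have hS : S.Finite :=
    (((Set.finite_singleton _).union (Set.finite_singleton _)).union (f2.image _)).union
      (f3.image _)
  obtain ⟨γ, hγ⟩ := hS.infinite_compl.nonempty
  have hγ' : γ ∉ S := hγ
  simp only [S, Set.mem_union, Set.mem_singleton_iff, Set.mem_image, not_or, not_exists,
    not_and] at hγ'
  obtain ⟨⟨⟨k0, k1⟩, k2⟩, k3⟩ := hγ'
  refine ⟨γ, k0, ?_, ?_, ?_⟩
  · intro h
    apply k1
    rw [eq_div_iff (by norm_num)]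
    exact h
  · intro c w hc h1c hw hw0 h
    have hcne : c ≠ 0 := by
      rintro rfl
      norm_num at hc
    have hw' : w2 c = w := by
      simp only [w2]
      rw [div_eq_iff (by norm_num)]
      linear_combination -hw
    apply k2 c hc
    rw [hw', div_eq_iff (mul_ne_zero (mul_ne_zero (by norm_num) hcne) (pow_ne_zero _ hw0))]
    linear_combination -h
  · intro Y w hY hw hw0 h
    have hw' : w3 Y = w := hw.symm
    apply k3 Y hY
    rw [hw', div_eq_iff (pow_ne_zero _ hw0)]
    linear_combination -h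

/-- singular points of the members of the pencil -/
theorem no_sing {γ : ℂ} (hγ : Good γ) (x : Fin 3 → ℂ) (c0 c1 : ℂ) (hx : x ≠ 0)
    (hc : c0 ≠ 0 ∨ c1 ≠ 0) (h : ∀ i, c0 * gA x i + c1 * gG γ x i = 0)
    (hh : (Af x = 0 ∧ Gf γ x = 0) ∨ c1 ^ 4 = -16 * c0 ^ 4) : False := by
  have e0 := h 0
  have e1 := h 1
  have e2 := h 2
  simp only [gA, gG, Matrix.cons_val_zero, Matrix.cons_val_one, Matrix.cons_val] at e0 e1 e2
  have hγ0 := hγ.ne
  -- `c0 ≠ 0`
  have hc0 : c0 ≠ 0 := by
    rintro rfl
    have hc1 : c1 ≠ 0 := hc.resolve_left (fun h => h rfl)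
    apply hx
    have a0 : x 0 = 0 := by
      have : c1 * (256 * x 0 ^ 255) = 0 := by linear_combination e0
      simpa [hc1] using this
    have a1 : x 1 = 0 := by
      have : c1 * (256 * x 1 ^ 255) = 0 := by linear_combination e1
      simpa [hc1] using this
    have a2 : x 2 = 0 := by
      have : c1 * (256 * γ * x 2 ^ 255) = 0 := by linear_combination e2
      simpa [hc1, hγ0] using this
    funext i
    fin_cases i
    · exact a0
    · exact a1
    · exact a2
  -- the case `x 0 = 0`
  by_cases hx0 : x 0 = 0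
  · by_cases hc1 : c1 = 0
    · have a1 : x 1 = 0 := by
        have : c0 * (256 * x 1 ^ 255) = 0 := by
          rw [hx0, hc1] at e1
          linear_combination e1
        simpa [hc0] using this
      rcases hh with ⟨-, h2⟩ | h2
      · unfold Gf at h2
        rw [hx0, a1] at h2
        have a2 : x 2 = 0 := by
          have : γ * x 2 ^ 256 = 0 := by linear_combination h2
          simpa [hγ0] using this
        apply hx
        funext i
        fin_cases i
        · exact hx0
        · exact a1
        · exact a2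
      · rw [hc1] at h2
        have : c0 ^ 4 = 0 := by linear_combination (1 / 16) * h2
        exact hc0 (by simpa using this)
    · have a2 : x 2 = 0 := by
        have : c1 * (256 * γ * x 2 ^ 255) = 0 := by
          rw [hx0] at e2
          linear_combination e2
        simpa [hc1, hγ0] using this
      have a1 : x 1 ≠ 0 := by
        intro a1
        apply hx
        funext i
        fin_cases i
        · exact hx0
        · exact a1
        · exact a2
      have a3 : c0 + c1 = 0 := by
        have : (c0 + c1) * (256 * x 1 ^ 255) = 0 := by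
          rw [hx0] at e1
          linear_combination e1
        simpa [a1] using this
      rcases hh with ⟨h1, -⟩ | h2
      · unfold Af at h1
        rw [hx0, a2] at h1
        apply a1
        have : x 1 ^ 256 = 0 := by linear_combination h1
        simpa using this
      · have h3 : c1 = -c0 := by linear_combination a3
        rw [h3] at h2
        have : c0 ^ 4 = 0 := by linear_combination (1 / 17) * h2
        exact hc0 (by simpa using this)
  -- the case `x 0 ≠ 0`
  set c := c1 / c0 with hcdef
  set y := x 1 / x 0 with hy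
  set z := x 2 / x 0 with hz
  have hc1 : c1 = c * c0 := by rw [hcdef]; field_simp
  have hx1 : x 1 = y * x 0 := by rw [hy]; field_simp
  have hx2 : x 2 = z * x 0 := by rw [hz]; field_simp
  have hx0p : x 0 ^ 255 ≠ 0 := pow_ne_zero _ hx0
  have hx0q : x 0 ^ 256 ≠ 0 := pow_ne_zero _ hx0
  have E0 : 15 * z ^ 16 + y ^ 240 + 16 * c = 0 := by
    rw [hc1, hx1, hx2] at e0
    have : c0 * x 0 ^ 255 * (16 * (15 * z ^ 16 + y ^ 240 + 16 * c)) = 0 := by
      linear_combination e0
    have h2 := (mul_eq_zero.1 this).resolve_left (mul_ne_zero hc0 hx0p)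
    linear_combination (1 / 16) * h2
  have E1 : y ^ 239 * (16 * (1 + c) * y ^ 16 + 15) = 0 := by
    rw [hc1, hx1] at e1
    have : c0 * x 0 ^ 255 * (16 * (y ^ 239 * (16 * (1 + c) * y ^ 16 + 15))) = 0 := by
      linear_combination e1
    have h2 := (mul_eq_zero.1 this).resolve_left (mul_ne_zero hc0 hx0p)
    linear_combination (1 / 16) * h2
  have E2 : z ^ 15 * (1 + 16 * c * γ * z ^ 240) = 0 := by
    rw [hc1, hx2] at e2
    have : c0 * x 0 ^ 255 * (16 * (z ^ 15 * (1 + 16 * c * γ * z ^ 240))) = 0 := by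
      linear_combination e2
    have h2 := (mul_eq_zero.1 this).resolve_left (mul_ne_zero hc0 hx0p)
    linear_combination (1 / 16) * h2
  have H : (z ^ 16 + y ^ 256 + y ^ 240 = 0 ∧ 1 + y ^ 256 + γ * z ^ 256 = 0) ∨ c ^ 4 = -16 := by
    rcases hh with ⟨h1, h2⟩ | h2
    · left
      unfold Af at h1
      unfold Gf at h2
      rw [hx1, hx2] at h1 h2
      constructor
      · have : x 0 ^ 256 * (z ^ 16 + y ^ 256 + y ^ 240) = 0 := by linear_combination h1
        exact (mul_eq_zero.1 this).resolve_left hx0q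
      · have : x 0 ^ 256 * (1 + y ^ 256 + γ * z ^ 256) = 0 := by linear_combination h2
        exact (mul_eq_zero.1 this).resolve_left hx0q
    · right
      rw [hc1] at h2
      have : c0 ^ 4 * (c ^ 4 + 16) = 0 := by linear_combination h2
      have h3 := (mul_eq_zero.1 this).resolve_left (pow_ne_zero _ hc0)
      linear_combination h3
  have hnorm : c ^ 4 = -16 → ‖c‖ = 2 := by
    intro h4
    have h5 : ‖c‖ ^ 4 = 2 ^ 4 := by
      rw [← norm_pow, h4]
      norm_num
    exact (pow_left_inj₀ (norm_nonneg _) (by norm_num) (by norm_num)).1 h5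
  have h1c : c ^ 4 = -16 → 1 + c ≠ 0 := by
    intro h4 h5
    have : c = -1 := by linear_combination h5
    rw [this] at h4
    norm_num at h4
  by_cases hz0 : z = 0
  · by_cases hy0 : y = 0
    · rw [hz0, hy0] at E0
      have hc' : c = 0 := by linear_combination (1 / 16) * E0
      rcases H with ⟨-, h2⟩ | h2
      · rw [hz0, hy0] at h2
        norm_num at h2
      · rw [hc'] at h2
        norm_num at h2
    · have E1' := (mul_eq_zero.1 E1).resolve_left (pow_ne_zero _ hy0)
      rw [hz0] at E0
      rcases H with ⟨h1, h2⟩ | h2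
      · rw [hz0] at h1 h2
        have h3 : y ^ 240 * (y ^ 16 + 1) = 0 := by linear_combination h1
        have h4 := (mul_eq_zero.1 h3).resolve_left (pow_ne_zero _ hy0)
        have h5 : y ^ 16 = -1 := by linear_combination h4
        have h6 : y ^ 256 = 1 := by
          have : y ^ 256 = (y ^ 16) ^ 16 := by ring
          rw [this, h5]
          norm_num
        rw [h6] at h2
        norm_num at h2
      · have h3 := hnorm h2
        have h4 := h1c h2
        have h5 : y ^ 16 = -15 / (16 * (1 + c)) := by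
          rw [eq_div_iff (by simpa using h4)]
          linear_combination E1'
        have h6 : y ^ 240 = -(16 * c) := by linear_combination E0
        have h7 : ‖y ^ 16‖ ≤ 1 := by
          have h8 : (1 : ℝ) ≤ ‖1 + c‖ := by
            have := norm_sub_le (1 + c) 1
            rw [add_sub_cancel_left, h3, norm_one] at this
            linarith
          rw [h5, norm_div, norm_mul, norm_neg]
          have h9 : ‖(15 : ℂ)‖ = 15 := by simp
          have h10 : ‖(16 : ℂ)‖ = 16 := by simp
          rw [h9, h10, div_le_one (by positivity)]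
          linarith
        have h8 : ‖y ^ 240‖ ≤ 1 := by
          have : y ^ 240 = (y ^ 16) ^ 15 := by ring
          rw [this, norm_pow]
          exact pow_le_one₀ (norm_nonneg _) h7
        rw [h6, norm_neg, norm_mul, h3] at h8
        have h10 : ‖(16 : ℂ)‖ = 16 := by simp
        rw [h10] at h8
        norm_num at h8
  · have E2' := (mul_eq_zero.1 E2).resolve_left (pow_ne_zero _ hz0)
    have hzw : z ^ 240 = (z ^ 16) ^ 15 := by ring
    by_cases hy0 : y = 0
    · rw [hy0] at E0
      rcases H with ⟨h1, h2⟩ | h2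
      · rw [hy0] at h1
        have : z ^ 16 = 0 := by linear_combination h1
        exact hz0 (by simpa using this)
      · have h3 : z ^ 16 = -(16 * c) / 15 := by linear_combination (1 / 15) * E0
        rw [hzw, h3] at E2'
        apply hγ.h1
        have h4 : c ^ 16 = 16 ^ 4 := by
          have : c ^ 16 = (c ^ 4) ^ 4 := by ring
          rw [this, h2]
          norm_num
        have h5 : 15 ^ 15 - 16 ^ 16 * γ * c ^ 16 = 0 := by
          linear_combination 15 ^ 15 * E2'
        rw [h4] at h5
        linear_combination -h5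
    · have E1' := (mul_eq_zero.1 E1).resolve_left (pow_ne_zero _ hy0)
      have hyY : y ^ 240 = (y ^ 16) ^ 15 := by ring
      rcases H with ⟨h1, h2⟩ | h2
      · refine hγ.h3 (y ^ 16) (z ^ 16) ?_ ?_ (pow_ne_zero _ hz0) ?_
        · linear_combination (-(y ^ 16)) * E0 + E1' + 15 * y ^ 16 * h1
        · linear_combination h1
        · linear_combination h2
      · have h4 := h1c h2
        have h5 : y ^ 16 = -15 / (16 * (1 + c)) := by
          rw [eq_div_iff (by simpa using h4)]
          linear_combination E1'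
        refine hγ.h2 c (z ^ 16) h2 h4 ?_ (pow_ne_zero _ hz0) ?_
        · rw [← h5]
          linear_combination E0
        · linear_combination E2'

/-- the surface is smooth -/
theorem XX_smooth {γ : ℂ} (hγ : Good γ) : (XX γ).SmoothSurface := by
  refine ⟨Ep, Fp γ, rfl, fun v hv s t h => ?_⟩
  obtain ⟨hb, hx, hE, hF⟩ := mem_XX.1 hv
  have hw : ∀ (a c : Fin 3 → ℂ), s * (4 * (v.1 0 ^ 3 * a 0 + v.1 1 ^ 3 * a 1 + v.1 2 ^ 3 * a 2)) +
      t * (a 0 * Af v.2 + 2 * a 1 * Gf γ v.2 +
      (v.1 0 * (gA v.2 0 * c 0 + gA v.2 1 * c 1 + gA v.2 2 * c 2) +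
        2 * v.1 1 * (gG γ v.2 0 * c 0 + gG γ v.2 1 * c 1 + gG γ v.2 2 * c 2))) = 0 := by
    intro a c
    have := h (a, c)
    rw [dval_Ep, dval_Fp, dval_Ap, dval_Gp] at this
    exact this
  have a0 := hw ![1, 0, 0] 0
  have a1 := hw ![0, 1, 0] 0
  have a2 := hw ![0, 0, 1] 0
  have c0 := hw 0 ![1, 0, 0]
  have c1 := hw 0 ![0, 1, 0]
  have c2 := hw 0 ![0, 0, 1]
  simp at a0 a1 a2 c0 c1 c2
  by_cases ht : t = 0
  · refine ⟨?_, ht⟩
    subst ht
    simp at a0 a1 a2
    by_contra hs
    apply hb
    funext i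
    fin_cases i
    · exact a0.resolve_left hs
    · exact a1.resolve_left hs
    · exact a2.resolve_left hs
  exfalso
  have d0 := c0.resolve_left ht
  have d1 := c1.resolve_left ht
  have d2 := c2.resolve_left ht
  have hb01 : v.1 0 ≠ 0 ∨ 2 * v.1 1 ≠ 0 := by
    by_contra hcon
    push Not at hcon
    obtain ⟨h0, h1⟩ := hcon
    have h1' : v.1 1 = 0 := by simpa using h1
    rw [h0, h1'] at hE
    have h3 : v.1 2 = 0 := by simpa using hE
    apply hb
    funext i
    fin_cases i
    · exact h0
    · exact h1'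
    · exact h3
  refine no_sing hγ v.2 (v.1 0) (2 * v.1 1) hx hb01 (fun i => ?_) ?_
  · fin_cases i
    · exact d0
    · exact d1
    · exact d2
  · rcases a2 with hs | hb2
    · left
      subst hs
      simp [ht] at a0 a1
      exact ⟨a0, a1⟩
    · right
      rw [hb2] at hE
      linear_combination 16 * hE

end Pool.Agent.N154.CN
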