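import Pool.Agent.TH144.CN.Surf
import Pool.Agent.N154.CN.Defs

/-! The surface, and its hyperbolicity. -/

set_option autoImplicit false

open Filter Topology Metric Set
open MvPolynomial
open scoped LinearAlgebra.Projectivization

namespace Pool.Agent.N154.CN

open Pool.Agent.TH144.CN (B Y Ep Ap Gp Fp Af Gf)

/-- the surface -/
noncomputable def XX (γ : ℂ) : ClosedSet where
  eqs := {Ep, Fp γ}
  hom := by
    rintro G (rfl | rfl)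
    · exact ⟨_, _, Pool.Agent.TH144.CN.Ep_hom⟩
    · exact ⟨_, _, Pool.Agent.TH144.CN.Fp_hom γ⟩

lemma val_Ep (v : Vec) : val Ep v = v.1 0 ^ 4 + v.1 1 ^ 4 + v.1 2 ^ 4 := by
  simp [val, Ep, B]

lemma val_Ap (v : Vec) : val Ap v = Af v.2 := by
  simp [val, Ap, Y, Af]

lemma val_Gp (γ : ℂ) (v : Vec) : val (Gp γ) v = Gf γ v.2 := by
  simp [val, Gp, Y, Gf]

lemma val_Fp (γ : ℂ) (v : Vec) : val (Fp γ) v = v.1 0 * Af v.2 + 2 * v.1 1 * Gf γ v.2 := by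
  simp [val, Fp, Ap, Gp, Y, B, Af, Gf]

lemma mem_XX {γ : ℂ} {v : Vec} : v ∈ (XX γ).cone ↔ v.1 ≠ 0 ∧ v.2 ≠ 0 ∧
    v.1 0 ^ 4 + v.1 1 ^ 4 + v.1 2 ^ 4 = 0 ∧ v.1 0 * Af v.2 + 2 * v.1 1 * Gf γ v.2 = 0 := by
  unfold ClosedSet.cone XX
  simp only [mem_insert_iff, mem_singleton_iff, forall_eq_or_imp, forall_eq, val_Ep, val_Fp,
    mem_ofPred_eq]

lemma points_eq (γ : ℂ) : (XX γ).points = (Pool.Agent.TH144.CN.Xs γ).points := by
  ext p
  constructor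
  · rintro ⟨v, hv, h1, h2, e⟩
    exact ⟨v.1, v.2, h1, h2, Pool.Agent.TH144.CN.mem_Xs.2 (mem_XX.1 hv), e⟩
  · rintro ⟨b, x, hb, hx, hm, e⟩
    exact ⟨(b, x), mem_XX.2 (Pool.Agent.TH144.CN.mem_Xs.1 hm), hb, hx, e⟩

lemma HolomorphicOn.old {U : Set ℂ} {f : ℂ → P2 × P2} (h : HolomorphicOn U f) :
    Pool.Agent.TH144.CN.HolomorphicOn U f := by
  intro z hz
  obtain ⟨V, v, hV, hzV, hd, hc⟩ := h z hz
  exact ⟨V, fun w => (v w).1, fun w => (v w).2, hV, hzV, hd.fst, hd.snd, fun w hw => hc w hw⟩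

/-- the surface is Kobayashi hyperbolic -/
theorem XX_hyperbolic {γ : ℂ} (hγ : γ ≠ 0) : KobayashiHyperbolic (XX γ).points := by
  rw [points_eq]
  intro p hp q hq hpq
  refine lt_of_lt_of_le (Pool.Agent.TH144.CN.Xs_hyperbolic hγ p hp q hq hpq) ?_
  unfold kobayashi Pool.Agent.TH144.CN.kobayashi
  refine le_iInf₂ fun c hc => ?_
  refine iInf₂_le_of_le c ?_ le_rfl
  obtain ⟨k, r, f, s, t, h0, hl, hi, e⟩ := hc
  exact ⟨k, r, f, s, t, h0, hl, fun i => ⟨(hi i).1.old, (hi i).2⟩, e⟩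

end Pool.Agent.N154.CN
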